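import Pool.Agent.H20.Esp.Defs

/-!
# Elementary symmetric partitions: counting and injectivity
-/

namespace Pool.Agent.H20.Esp

open Multiset

lemma elemSym_zero (s : Multiset ℕ) : elemSym 0 s = {1} := by
  simp [elemSym]

lemma elemSym_succ_nil (k : ℕ) : elemSym (k + 1) 0 = 0 := by
  simp [elemSym]

lemma elemSym_cons (k a : ℕ) (s : Multiset ℕ) :
    elemSym (k + 1) (a ::ₘ s) = elemSym (k + 1) s + (elemSym k s).map (fun x => a * x) := by
  simp only [elemSym, powersetCard_cons, Multiset.map_add, Multiset.map_map, Function.comp_def,
    Multiset.prod_cons]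

lemma card_elemSym (k : ℕ) (s : Multiset ℕ) : card (elemSym k s) = (card s).choose k := by
  simp [elemSym]

lemma count_map_mul (a d : ℕ) (ha : 0 < a) (M : Multiset ℕ) :
    (M.map (fun x => a * x)).count (a * d) = M.count d := by
  exact Multiset.count_map_eq_count' _ _ (mul_right_injective₀ ha.ne') _

lemma count_map_mul_of_not_dvd (a d : ℕ) (had : ¬ a ∣ d) (M : Multiset ℕ) :
    (M.map (fun x => a * x)).count d = 0 := by
  rw [Multiset.count_eq_zero]
  intro h
  rw [Multiset.mem_map] at h
  obtain ⟨x, -, rfl⟩ := h
  exact had (Dvd.intro x rfl)

lemma count_cons (k a d : ℕ) (ha : 0 < a) (s : Multiset ℕ) :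
    (elemSym (k + 1) (a ::ₘ s)).count (a * d) =
      (elemSym (k + 1) s).count (a * d) + (elemSym k s).count d := by
  rw [elemSym_cons, Multiset.count_add, count_map_mul a d ha]

lemma count_cons_of_not_dvd (k a d : ℕ) (had : ¬ a ∣ d) (s : Multiset ℕ) :
    (elemSym (k + 1) (a ::ₘ s)).count d = (elemSym (k + 1) s).count d := by
  rw [elemSym_cons, Multiset.count_add, count_map_mul_of_not_dvd a d had, add_zero]

/-- the number of products equal to `1` -/
lemma count_one (s : Multiset ℕ) (k : ℕ) (hs : 0 ∉ s) :
    (elemSym k s).count 1 = (s.count 1).choose k := by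
  induction s using Multiset.induction_on generalizing k with
  | empty =>
    cases k with
    | zero => simp [elemSym_zero]
    | succ k => simp [elemSym_succ_nil]
  | cons a s ih =>
    have hs' : 0 ∉ s := fun h => hs (Multiset.mem_cons_of_mem h)
    have ha : a ≠ 0 := fun h => hs (by simp [h])
    cases k with
    | zero => simp [elemSym_zero]
    | succ k =>
      by_cases h1 : a = 1
      · subst h1
        have := count_cons k 1 1 one_pos s
        rw [mul_one] at this
        rw [this, ih _ hs', ih _ hs', Multiset.count_cons_self, Nat.choose_succ_succ, add_comm]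
      · rw [count_cons_of_not_dvd, ih _ hs', Multiset.count_cons_of_ne (Ne.symm h1)]
        intro h
        exact h1 (Nat.dvd_one.mp h)

/-- the number of products equal to a prime `p` -/
lemma count_prime (s : Multiset ℕ) (k p : ℕ) (hp : p.Prime) (hs : 0 ∉ s) :
    (elemSym (k + 1) s).count p = (s.count 1).choose k * s.count p := by
  induction s using Multiset.induction_on generalizing k with
  | empty => simp [elemSym_succ_nil]
  | cons a s ih =>
    have hs' : 0 ∉ s := fun h => hs (Multiset.mem_cons_of_mem h)
    have ha : a ≠ 0 := fun h => hs (by simp [h])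
    by_cases h1 : a = 1
    · subst h1
      have := count_cons k 1 p one_pos s
      rw [one_mul] at this
      rw [this, ih _ hs', Multiset.count_cons_self, Multiset.count_cons_of_ne hp.one_lt.ne']
      cases k with
      | zero =>
        rw [elemSym_zero, Multiset.count_singleton, if_neg hp.one_lt.ne']
        simp
      | succ k =>
        rw [ih _ hs', Nat.choose_succ_succ]
        ring
    · by_cases h2 : a = p
      · subst h2
        have := count_cons k a 1 hp.pos s
        rw [mul_one] at this
        rw [this, ih _ hs', count_one s k hs', Multiset.count_cons_self,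
          Multiset.count_cons_of_ne (Ne.symm h1)]
        ring
      · rw [count_cons_of_not_dvd, ih _ hs', Multiset.count_cons_of_ne (Ne.symm h1),
          Multiset.count_cons_of_ne (Ne.symm h2)]
        intro h
        rcases (Nat.dvd_prime hp).mp h with h | h
        · exact h1 h
        · exact h2 h

/-- only the entries at most `D` matter for the products equal to `d ≤ D` -/
lemma count_filter (s : Multiset ℕ) (k d D : ℕ) (hd : 0 < d) (hdD : d ≤ D) (hs : 0 ∉ s) :
    (elemSym k s).count d = (elemSym k (s.filter (fun x => x ≤ D))).count d := by
  induction s using Multiset.induction_on generalizing k d with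
  | empty => simp
  | cons a s ih =>
    have hs' : 0 ∉ s := fun h => hs (Multiset.mem_cons_of_mem h)
    have ha : a ≠ 0 := fun h => hs (by simp [h])
    cases k with
    | zero => simp [elemSym_zero]
    | succ k =>
      by_cases had : a ∣ d
      · obtain ⟨e, rfl⟩ := had
        have he : 0 < e := Nat.pos_of_ne_zero (by rintro rfl; simp at hd)
        have hle : a ≤ D := le_trans (Nat.le_mul_of_pos_right a he) hdD
        have hle' : e ≤ D := le_trans (Nat.le_mul_of_pos_left e (Nat.pos_of_ne_zero ha)) hdD
        rw [Multiset.filter_cons_of_pos (p := fun x => x ≤ D) s hle, count_cons _ _ _ (Nat.pos_of_ne_zero ha),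
          count_cons _ _ _ (Nat.pos_of_ne_zero ha), ih _ _ hd hdD hs', ih _ _ he hle' hs']
      · rw [count_cons_of_not_dvd _ _ _ had, ih _ _ hd hdD hs']
        by_cases hle : a ≤ D
        · rw [Multiset.filter_cons_of_pos (p := fun x => x ≤ D) s hle,
            count_cons_of_not_dvd _ _ _ had]
        · rw [Multiset.filter_cons_of_neg (p := fun x => x ≤ D) s hle]

lemma count_replicate (u : Multiset ℕ) (m k c : ℕ) (hc : 1 < c) (hu : 0 ∉ u) :
    (elemSym (k + 1) (Multiset.replicate m c + u)).count c =
      (elemSym (k + 1) u).count c + m * (u.count 1).choose k := by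
  induction m with
  | zero => simp
  | succ m ih =>
    have h0 : 0 ∉ Multiset.replicate m c + u := by
      rw [Multiset.mem_add, not_or]
      refine ⟨fun h => ?_, hu⟩
      have := Multiset.eq_of_mem_replicate h
      omega
    have := count_cons k c 1 (by omega) (Multiset.replicate m c + u)
    rw [mul_one] at this
    rw [Multiset.replicate_succ, Multiset.cons_add, this, ih, count_one _ _ h0,
      Multiset.count_add, Multiset.count_replicate, if_neg (by omega)]
    ring_nf

lemma filter_le_eq (s : Multiset ℕ) (c : ℕ) :
    s.filter (fun x => x ≤ c) =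
      Multiset.replicate (s.count c) c + s.filter (fun x => x < c) := by
  ext d
  rw [Multiset.count_add, Multiset.count_replicate, Multiset.count_filter, Multiset.count_filter]
  by_cases h : d = c
  · subst h
    simp
  · rw [if_neg (Ne.symm h), zero_add]
    by_cases h2 : d ≤ c
    · rw [if_pos h2, if_pos (by omega)]
    · rw [if_neg h2, if_neg (by omega)]

/-- `E_k` is injective on the multisets of positive integers with at least `k - 1` ones. -/
theorem elemSym_injective (k : ℕ) (s t : Multiset ℕ) (hs : 0 ∉ s) (ht : 0 ∉ t)
    (hs1 : k ≤ s.count 1) (ht1 : k ≤ t.count 1)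
    (h : elemSym (k + 1) s = elemSym (k + 1) t) : s = t := by
  by_contra hne
  have hex : ∃ c, s.count c ≠ t.count c := by
    by_contra hcon
    push Not at hcon
    exact hne (Multiset.ext.mpr hcon)
  classical
  let c := Nat.find hex
  have hc : s.count c ≠ t.count c := Nat.find_spec hex
  have hmin : ∀ d < c, s.count d = t.count d := by
    intro d hd
    by_contra hcon
    exact Nat.find_min hex hd hcon
  have h0 : c ≠ 0 := by
    intro h0
    rw [h0, Multiset.count_eq_zero.mpr hs, Multiset.count_eq_zero.mpr ht] at hc
    exact hc rfl
  have hone : (s.count 1).choose (k + 1) = (t.count 1).choose (k + 1) := by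
    rw [← count_one s _ hs, ← count_one t _ ht, h]
  have hone' : s.count 1 = t.count 1 := by
    rcases lt_trichotomy (s.count 1) (t.count 1) with hlt | heq | hgt
    · exfalso
      have h1 : (s.count 1).choose (k + 1) < (t.count 1).choose (k + 1) := by
        calc (s.count 1).choose (k + 1) < (s.count 1).choose k + (s.count 1).choose (k + 1) := by
              have := Nat.choose_pos hs1
              omega
          _ = (s.count 1 + 1).choose (k + 1) := (Nat.choose_succ_succ _ _).symm
          _ ≤ (t.count 1).choose (k + 1) := Nat.choose_le_choose _ hlt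
      omega
    · exact heq
    · exfalso
      have h1 : (t.count 1).choose (k + 1) < (s.count 1).choose (k + 1) := by
        calc (t.count 1).choose (k + 1) < (t.count 1).choose k + (t.count 1).choose (k + 1) := by
              have := Nat.choose_pos ht1
              omega
          _ = (t.count 1 + 1).choose (k + 1) := (Nat.choose_succ_succ _ _).symm
          _ ≤ (s.count 1).choose (k + 1) := Nat.choose_le_choose _ hgt
      omega
  have hc1 : c ≠ 1 := by
    intro h1
    rw [h1] at hc
    exact hc hone'
  have hc2 : 1 < c := by omega
  have hfilt : s.filter (fun x => x < c) = t.filter (fun x => x < c) := by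
    ext d
    rw [Multiset.count_filter, Multiset.count_filter]
    by_cases hd : d < c
    · rw [if_pos hd, if_pos hd, hmin d hd]
    · rw [if_neg hd, if_neg hd]
  have key : ∀ r : Multiset ℕ, 0 ∉ r → (elemSym (k + 1) r).count c =
      (elemSym (k + 1) (r.filter (fun x => x < c))).count c +
        r.count c * (r.count 1).choose k := by
    intro r hr
    have hr' : 0 ∉ r.filter (fun x => x < c) := fun h => hr (Multiset.mem_of_mem_filter h)
    rw [count_filter r (k + 1) c c (by omega) le_rfl hr, filter_le_eq,
      count_replicate _ _ _ _ hc2 hr', Multiset.count_filter, if_pos hc2]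
  have e1 := key s hs
  have e2 := key t ht
  rw [h] at e1
  rw [e1, hfilt, hone'] at e2
  have hpos : 0 < (t.count 1).choose k := Nat.choose_pos ht1
  have : s.count c * (t.count 1).choose k = t.count c * (t.count 1).choose k := by omega
  exact hc (Nat.eq_of_mul_eq_mul_right hpos this)

end Pool.Agent.H20.Esp
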