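import Pool.Agent.H20.Esp.Two

/-!
# Elementary symmetric partitions: complements

If `x * f x = C` for all entries `x` of `s`, then the products of `j` entries of `s.map f` are,
up to a factor, the products of the complementary `card s - j` entries of `s`.
-/

namespace Pool.Agent.H20.Esp

open Multiset

lemma elemSym_card (s : Multiset ℕ) : elemSym (card s) s = {s.prod} := by
  simp [elemSym, Multiset.powersetCard_self]

lemma elemSym_compl (C : ℕ) (f : ℕ → ℕ) (s : Multiset ℕ) (hf : ∀ x ∈ s, x * f x = C) :
    ∀ i j : ℕ, i + j = card s →
      (elemSym j (s.map f)).map (fun x => s.prod * x) = (elemSym i s).map (fun x => C ^ j * x) := by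
  induction s using Multiset.induction_on with
  | empty =>
    intro i j h
    simp only [Multiset.card_zero, Nat.add_eq_zero_iff] at h
    obtain ⟨rfl, rfl⟩ := h
    simp [elemSym_zero]
  | cons a t ih =>
    intro i j h
    have ih' := ih (fun x hx => hf x (Multiset.mem_cons_of_mem hx))
    have ha : a * f a = C := hf a (Multiset.mem_cons_self a t)
    rw [Multiset.card_cons] at h
    rw [Multiset.map_cons, Multiset.prod_cons]
    cases j with
    | zero =>
      obtain rfl : i = card (a ::ₘ t) := by rw [Multiset.card_cons]; omega
      rw [elemSym_card, elemSym_zero]
      simp
    | succ j =>
      cases i with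
      | zero =>
        have hj : j + 1 = card (f a ::ₘ t.map f) := by
          rw [Multiset.card_cons, Multiset.card_map]; omega
        have h0 := ih' 0 j (by omega)
        have hj' : j = card (t.map f) := by rw [Multiset.card_map]; omega
        have e1 : elemSym j (t.map f) = {(t.map f).prod} := by
          rw [hj', elemSym_card]
        rw [e1, elemSym_zero] at h0
        simp only [Multiset.map_singleton, mul_one, Multiset.singleton_inj] at h0
        rw [hj, elemSym_card, elemSym_zero, ← hj]
        simp only [Multiset.map_singleton, mul_one, Multiset.prod_cons, Multiset.singleton_inj]
        calc a * t.prod * (f a * (t.map f).prod) = (a * f a) * (t.prod * (t.map f).prod) := by ring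
          _ = C ^ (j + 1) := by rw [ha, h0]; ring
      | succ i =>
        have h1 := ih' i (j + 1) (by omega)
        have h2 := ih' (i + 1) j (by omega)
        rw [elemSym_cons, elemSym_cons, Multiset.map_add, Multiset.map_add]
        rw [add_comm]
        congr 1
        · calc ((elemSym j (t.map f)).map (fun x => f a * x)).map (fun x => a * t.prod * x)
              = ((elemSym j (t.map f)).map (fun x => t.prod * x)).map (fun x => C * x) := by
                rw [Multiset.map_map, Multiset.map_map]
                apply Multiset.map_congr rfl
                intro x _
                simp only [Function.comp]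
                rw [← ha]; ring
            _ = (elemSym (i + 1) t).map (fun x => C ^ (j + 1) * x) := by
                rw [h2, Multiset.map_map]
                apply Multiset.map_congr rfl
                intro x _
                simp only [Function.comp]
                ring
        · calc (elemSym (j + 1) (t.map f)).map (fun x => a * t.prod * x)
              = ((elemSym (j + 1) (t.map f)).map (fun x => t.prod * x)).map (fun x => a * x) := by
                rw [Multiset.map_map]
                apply Multiset.map_congr rfl
                intro x _
                simp only [Function.comp]
                ring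
            _ = ((elemSym i t).map (fun x => a * x)).map (fun x => C ^ (j + 1) * x) := by
                rw [h1, Multiset.map_map, Multiset.map_map]
                apply Multiset.map_congr rfl
                intro x _
                simp only [Function.comp]
                ring

/-- the complement trick -/
lemma elemSym_eq_of_compl (C k : ℕ) (hC : 0 < C) (f : ℕ → ℕ) (s : Multiset ℕ)
    (hf : ∀ x ∈ s, x * f x = C) (hk : card s = k + k) (hp : s.prod = C ^ k) :
    elemSym k (s.map f) = elemSym k s := by
  have h := elemSym_compl C f s hf k k hk.symm
  rw [hp] at h
  have hpos : 0 < C ^ k := Nat.pow_pos hC
  exact Multiset.map_injective (fun x y hxy => Nat.eq_of_mul_eq_mul_left hpos hxy) h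

end Pool.Agent.H20.Esp
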