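import Pool.Agent.H20.Esp.Same
import Pool.Agent.H20.Esp.Compl

/-!
# Collisions between `k - 2` and `k - 1` ones: a lower bound for the sum of the parts
-/

namespace Pool.Agent.H20.Esp

open Multiset

lemma choose_inj' {n m k : ℕ} (hk : 1 ≤ k) (hn : k ≤ n) (hm : k ≤ m)
    (h : n.choose k = m.choose k) : n = m := by
  have key : ∀ x y : ℕ, k ≤ x → x < y → x.choose k < y.choose k := by
    intro x y hx hxy
    obtain ⟨k', rfl⟩ : ∃ k', k = k' + 1 := ⟨k - 1, by omega⟩
    have h1 : (x + 1).choose (k' + 1) ≤ y.choose (k' + 1) := Nat.choose_le_choose _ hxy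
    have h2 : 0 < x.choose k' := Nat.choose_pos (by omega)
    rw [Nat.choose_succ_succ' x k'] at h1
    omega
  rcases lt_trichotomy n m with hlt | heq | hgt
  · have := key n m hn hlt
    omega
  · exact heq
  · have := key m n hm hgt
    omega

lemma pair_min {a b p q : ℕ} {r w : Multiset ℕ} (hab : a ≤ b) (hr : ∀ x ∈ r, b ≤ x)
    (hle : p ::ₘ q ::ₘ w ≤ a ::ₘ b ::ₘ r) : a * b ≤ p * q := by
  have hmin : ∀ z ∈ a ::ₘ b ::ₘ r, a ≤ z := by
    intro z hz
    rcases Multiset.mem_cons.mp hz with h | h
    · exact h ▸ le_rfl
    · rcases Multiset.mem_cons.mp h with h | h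
      · exact h ▸ hab
      · exact le_trans hab (hr z h)
  have hap : a ≤ p := hmin p (Multiset.mem_of_le hle (by simp))
  have haq : a ≤ q := hmin q (Multiset.mem_of_le hle (by simp))
  by_cases hpa : p = a
  · rw [hpa, Multiset.cons_le_cons_iff] at hle
    have hq : q ∈ b ::ₘ r := Multiset.mem_of_le hle (by simp)
    have hbq : b ≤ q := by
      rcases Multiset.mem_cons.mp hq with h | h
      · exact h ▸ le_rfl
      · exact hr q h
    rw [hpa]
    exact Nat.mul_le_mul_left a hbq
  · have hp : p ∈ a ::ₘ b ::ₘ r := Multiset.mem_of_le hle (by simp)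
    rcases Multiset.mem_cons.mp hp with h | h
    · exact absurd h hpa
    · have hbp : b ≤ p := by
        rcases Multiset.mem_cons.mp h with h | h
        · exact h ▸ le_rfl
        · exact hr p h
      rw [mul_comm]
      exact Nat.mul_le_mul hbp haq

lemma zero_notMem_of {u : Multiset ℕ} (m : ℕ) (hu : ∀ x ∈ u, 2 ≤ x) :
    0 ∉ u + Multiset.replicate m 1 := by
  rw [Multiset.mem_add, not_or]
  constructor
  · intro h
    have := hu 0 h
    omega
  · intro h
    have := Multiset.eq_of_mem_replicate h
    omega

lemma count_one_of {u : Multiset ℕ} (m : ℕ) (hu : ∀ x ∈ u, 2 ≤ x) :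
    (u + Multiset.replicate m 1).count 1 = m := by
  rw [Multiset.count_add, Multiset.count_replicate_self, Multiset.count_eq_zero.mpr, zero_add]
  intro h
  have := hu 1 h
  omega

lemma nonOne_of {u : Multiset ℕ} (m : ℕ) (hu : ∀ x ∈ u, 2 ≤ x) :
    nonOne (u + Multiset.replicate m 1) = u := by
  unfold nonOne
  rw [Multiset.filter_add]
  have h1 : (Multiset.replicate m 1).filter (fun x => x ≠ 1) = 0 := by
    rw [Multiset.filter_eq_nil]
    intro x hx
    have := Multiset.eq_of_mem_replicate hx
    omega
  have h2 : u.filter (fun x => x ≠ 1) = u := by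
    rw [Multiset.filter_eq_self]
    intro x hx
    have := hu x hx
    omega
  rw [h1, h2, add_zero]

/-- `E_m` of a multiset with `m` ones: one `1`, the rest is large -/
lemma elemSym_top (m : ℕ) (u : Multiset ℕ) (hu : ∀ x ∈ u, 2 ≤ x) :
    ∃ W, elemSym m (u + Multiset.replicate m 1) = 1 ::ₘ W ∧ ∀ w ∈ W, ∃ y ∈ u, y ≤ w := by
  have h0 := zero_notMem_of m hu
  have h1 : (elemSym m (u + Multiset.replicate m 1)).count 1 = 1 := by
    rw [count_one _ _ h0, count_one_of m hu, Nat.choose_self]
  have hmem : 1 ∈ elemSym m (u + Multiset.replicate m 1) := by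
    rw [← Multiset.one_le_count_iff_mem, h1]
  obtain ⟨W, hW⟩ := Multiset.exists_cons_of_mem hmem
  refine ⟨W, hW, ?_⟩
  intro w hw
  have hw1 : w ≠ 1 := by
    rintro rfl
    rw [hW, Multiset.count_cons_self] at h1
    have := Multiset.one_le_count_iff_mem.mpr hw
    omega
  obtain ⟨y, hy, hy1, hyw⟩ := exists_factor h0 (by rw [hW]; exact Multiset.mem_cons_of_mem hw) hw1
  rw [Multiset.mem_add] at hy
  rcases hy with hy | hy
  · exact ⟨y, hy, hyw⟩
  · exact absurd (Multiset.eq_of_mem_replicate hy) hy1

/-- products below all products of two entries `≠ 1` -/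
lemma count_small (m P : ℕ) (v : Multiset ℕ) (hv : ∀ x ∈ v, 2 ≤ x)
    (hP : ∀ p q : ℕ, p ::ₘ q ::ₘ 0 ≤ v → P < p * q) (e : ℕ) (heP : e ≤ P) :
    (elemSym (m + 1) (v + Multiset.replicate m 1)).count e = v.count e := by
  induction v using Multiset.induction_on with
  | empty =>
    rw [zero_add, Multiset.count_zero, Multiset.count_eq_zero]
    intro h
    obtain ⟨t, ht, hcard, -⟩ := mem_elemSym.mp h
    have := Multiset.card_le_card ht
    rw [hcard, Multiset.card_replicate] at this
    omega
  | cons z v ih =>
    have hv' : ∀ x ∈ v, 2 ≤ x := fun x hx => hv x (Multiset.mem_cons_of_mem hx)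
    have ih' := ih hv' (fun p q h => hP p q (le_trans h (Multiset.le_cons_self v z)))
    obtain ⟨W, hW, hW2⟩ := elemSym_top m v hv'
    rw [Multiset.cons_add, elemSym_cons, Multiset.count_add, ih', hW, Multiset.map_cons, mul_one]
    have h0 : (W.map (fun x => z * x)).count e = 0 := by
      rw [Multiset.count_eq_zero, Multiset.mem_map]
      rintro ⟨w, hw, hwe⟩
      obtain ⟨y, hy, hyw⟩ := hW2 w hw
      have h1 : P < z * y := by
        apply hP
        apply Multiset.cons_le_cons
        rw [Multiset.cons_zero, Multiset.singleton_le]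
        exact hy
      have h2 : z * y ≤ z * w := Nat.mul_le_mul_left z hyw
      omega
    by_cases hez : e = z
    · subst hez
      rw [Multiset.count_cons_self, Multiset.count_cons_self, h0]
    · rw [Multiset.count_cons_of_ne hez, Multiset.count_cons_of_ne hez, h0]
      rfl

lemma one_le_elemSym (m : ℕ) (u : Multiset ℕ) (hu : ∀ x ∈ u, 2 ≤ x) :
    ({1} : Multiset ℕ) ≤ elemSym m (u + Multiset.replicate m 1) := by
  obtain ⟨W, hW, -⟩ := elemSym_top m u hu
  rw [hW, Multiset.singleton_le]
  exact Multiset.mem_cons_self 1 W

lemma replicate_le_pred (c : ℕ) (u : Multiset ℕ) (hu : ∀ x ∈ u, 2 ≤ x) :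
    Multiset.replicate (c + 1) 1 ≤ elemSym c (u + Multiset.replicate (c + 1) 1) := by
  rw [← Multiset.le_count_iff_replicate_le, count_one _ _ (zero_notMem_of _ hu),
    count_one_of _ hu, Nat.choose_succ_self_right]

/-- small members of `E_{c+2}` of a multiset with `c` ones, three entries -/
lemma small_three (c a b d : ℕ) (r : Multiset ℕ) (hr : ∀ x ∈ r, 2 ≤ x) :
    b * d ::ₘ a * d ::ₘ a * b ::ₘ Multiset.replicate c (a * (b * d)) ≤
      elemSym (c + 2) (a ::ₘ b ::ₘ d ::ₘ (r + Multiset.replicate c 1)) := by
  set rest := r + Multiset.replicate c 1 with hrest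
  have hX : ({1} : Multiset ℕ) ≤ elemSym c rest := one_le_elemSym c r hr
  have h1 : ({d} : Multiset ℕ) ≤ elemSym (c + 1) (d ::ₘ rest) := by
    rw [elemSym_cons]
    refine le_trans ?_ (Multiset.le_add_left _ _)
    have := Multiset.map_le_map (f := fun x => d * x) hX
    simpa using this
  have h2 : ({1} : Multiset ℕ) + Multiset.replicate c d ≤ elemSym c (d ::ₘ rest) := by
    cases c with
    | zero => simp [elemSym_zero]
    | succ c =>
      rw [elemSym_cons]
      refine add_le_add hX ?_
      have := Multiset.map_le_map (f := fun x => d * x) (replicate_le_pred c r hr)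
      rw [Multiset.map_replicate, mul_one] at this
      exact this
  have h3 : ({d} : Multiset ℕ) + ({b} + Multiset.replicate c (b * d)) ≤
      elemSym (c + 1) (b ::ₘ d ::ₘ rest) := by
    rw [elemSym_cons]
    refine add_le_add h1 ?_
    have := Multiset.map_le_map (f := fun x => b * x) h2
    rw [Multiset.map_add, Multiset.map_replicate, Multiset.map_singleton, mul_one] at this
    exact this
  have h4 : ({b * d} : Multiset ℕ) ≤ elemSym (c + 2) (b ::ₘ d ::ₘ rest) := by
    rw [elemSym_cons]
    refine le_trans ?_ (Multiset.le_add_left _ _)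
    have := Multiset.map_le_map (f := fun x => b * x) h1
    simpa using this
  rw [elemSym_cons (c + 1) a]
  have h5 := Multiset.map_le_map (f := fun x => a * x) h3
  rw [Multiset.map_add, Multiset.map_add, Multiset.map_replicate, Multiset.map_singleton,
    Multiset.map_singleton] at h5
  have h6 := add_le_add h4 h5
  rw [Multiset.singleton_add, Multiset.singleton_add, Multiset.singleton_add] at h6
  exact h6

/-- small members of `E_{c+2}` of a multiset with `c` ones, four entries -/
lemma small_four (c a b d z : ℕ) (r : Multiset ℕ) (hr : ∀ x ∈ r, 2 ≤ x) :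
    a * z ::ₘ b * d ::ₘ a * d ::ₘ a * b ::ₘ (Multiset.replicate c (a * (b * z)) +
      Multiset.replicate c (a * (b * d))) ≤
      elemSym (c + 2) (a ::ₘ b ::ₘ d ::ₘ z ::ₘ (r + Multiset.replicate c 1)) := by
  set rest := r + Multiset.replicate c 1 with hrest
  have hX : ({1} : Multiset ℕ) ≤ elemSym c rest := one_le_elemSym c r hr
  have hz1 : ({z} : Multiset ℕ) ≤ elemSym (c + 1) (z ::ₘ rest) := by
    rw [elemSym_cons]
    refine le_trans ?_ (Multiset.le_add_left _ _)
    have := Multiset.map_le_map (f := fun x => z * x) hX
    simpa using this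
  have hz2 : ({1} : Multiset ℕ) + Multiset.replicate c z ≤ elemSym c (z ::ₘ rest) := by
    cases c with
    | zero => simp [elemSym_zero]
    | succ c =>
      rw [elemSym_cons]
      refine add_le_add hX ?_
      have := Multiset.map_le_map (f := fun x => z * x) (replicate_le_pred c r hr)
      rw [Multiset.map_replicate, mul_one] at this
      exact this
  have h1 : ({z} : Multiset ℕ) + {d} ≤ elemSym (c + 1) (d ::ₘ z ::ₘ rest) := by
    rw [elemSym_cons]
    refine add_le_add hz1 ?_
    have := Multiset.map_le_map (f := fun x => d * x)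
      (le_trans (Multiset.le_add_right _ _) hz2)
    simpa using this
  have h2 : ({1} : Multiset ℕ) + Multiset.replicate c z + Multiset.replicate c d ≤
      elemSym c (d ::ₘ z ::ₘ rest) := by
    cases c with
    | zero => simp [elemSym_zero]
    | succ c =>
      rw [elemSym_cons]
      refine add_le_add hz2 ?_
      have h3 : Multiset.replicate (c + 1) 1 ≤ elemSym c (z ::ₘ rest) := by
        cases c with
        | zero => simp [elemSym_zero]
        | succ c =>
          rw [elemSym_cons]
          exact le_trans (replicate_le_pred (c + 1) r hr) (Multiset.le_add_right _ _)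
      have := Multiset.map_le_map (f := fun x => d * x) h3
      rw [Multiset.map_replicate, mul_one] at this
      exact this
  have h3 : ({z} : Multiset ℕ) + {d} + ({b} + Multiset.replicate c (b * z) +
      Multiset.replicate c (b * d)) ≤ elemSym (c + 1) (b ::ₘ d ::ₘ z ::ₘ rest) := by
    rw [elemSym_cons]
    refine add_le_add h1 ?_
    have := Multiset.map_le_map (f := fun x => b * x) h2
    rw [Multiset.map_add, Multiset.map_add, Multiset.map_replicate, Multiset.map_replicate,
      Multiset.map_singleton, mul_one] at this
    exact this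
  have h4 : ({b * d} : Multiset ℕ) ≤ elemSym (c + 2) (b ::ₘ d ::ₘ z ::ₘ rest) := by
    rw [elemSym_cons]
    refine le_trans ?_ (Multiset.le_add_left _ _)
    have := Multiset.map_le_map (f := fun x => b * x)
      (le_trans (Multiset.le_add_left _ _) h1)
    simpa using this
  rw [elemSym_cons (c + 1) a]
  have h5 := Multiset.map_le_map (f := fun x => a * x) h3
  simp only [Multiset.map_add, Multiset.map_replicate, Multiset.map_singleton] at h5
  have h6 := add_le_add h4 h5
  refine le_trans (le_of_eq ?_) h6
  simp only [← Multiset.singleton_add]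
  abel

/-- a cross pair has a large sum and more than `2k` parts -/
theorem cross_bound (c : ℕ) (hc : 1 ≤ c) (s t : Multiset ℕ) (hs : 0 ∉ s) (ht : 0 ∉ t)
    (hcs : s.count 1 = c) (hct : t.count 1 = c + 1) (hne : elemSym (c + 2) s ≠ 0)
    (h : elemSym (c + 2) s = elemSym (c + 2) t) (hsum : s.sum = t.sum) :
    9 * c + 20 ≤ s.sum ∧ card s = card t ∧ 2 * c + 5 ≤ card s := by
  have hcard1 : c + 2 ≤ card s := by
    by_contra hcon
    push Not at hcon
    apply hne
    rw [← Multiset.card_eq_zero, card_elemSym, Nat.choose_eq_zero_of_lt hcon]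
  have hcard2 : c + 2 ≤ card t := by
    by_contra hcon
    push Not at hcon
    apply hne
    rw [h, ← Multiset.card_eq_zero, card_elemSym, Nat.choose_eq_zero_of_lt hcon]
  have hcard : card s = card t := by
    apply choose_inj' (k := c + 2) (by omega) hcard1 hcard2
    rw [← card_elemSym, ← card_elemSym, h]
  have hcs' := card_nonOne s
  have hct' := card_nonOne t
  have hs2 : ∀ x ∈ nonOne s, 2 ≤ x := fun x hx => two_le_of_mem_nonOne hs hx
  have ht2 : ∀ x ∈ nonOne t, 2 ≤ x := fun x hx => two_le_of_mem_nonOne ht hx
  have hseq := eq_of_nonOne (s := s) rfl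
  have hteq := eq_of_nonOne (s := t) rfl
  rcases Nat.eq_or_lt_of_le hcard1 with hk | hk
  · exfalso
    have h1 : elemSym (c + 2) s = {s.prod} := by rw [hk, elemSym_card]
    have h2 : elemSym (c + 2) t = {t.prod} := by rw [hk, hcard, elemSym_card]
    rw [h1, h2, Multiset.singleton_inj] at h
    obtain ⟨a, b, hab⟩ := Multiset.card_eq_two.mp (show card (nonOne s) = 2 by omega)
    obtain ⟨d, hd⟩ := Multiset.card_eq_one.mp (show card (nonOne t) = 1 by omega)
    rw [← prod_nonOne s, ← prod_nonOne t, hab, hd] at h
    rw [hseq, hteq, hab, hd, hcs, hct] at hsum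
    simp only [Multiset.insert_eq_cons, Multiset.prod_cons, Multiset.prod_singleton,
      Multiset.sum_add, Multiset.sum_cons, Multiset.sum_singleton, Multiset.sum_replicate,
      smul_eq_mul, mul_one] at h hsum
    have ha := hs2 a (by rw [hab]; simp)
    have hb := hs2 b (by rw [hab]; simp)
    have : a + b = 1 + a * b := by omega
    nlinarith
  · obtain ⟨a, b, d, r, hu, hab, hbd, hrd⟩ := exists_three (nonOne s) (by omega)
    obtain ⟨x, y, v, hv, hxy, hvy⟩ := exists_two (nonOne t) (by omega)
    have ha : 2 ≤ a := hs2 a (by rw [hu]; simp)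
    have hb : 2 ≤ b := hs2 b (by rw [hu]; simp)
    have hd : 2 ≤ d := hs2 d (by rw [hu]; simp)
    have hr : ∀ z ∈ r, 2 ≤ z := fun z hz => hs2 z (by rw [hu]; simp [hz])
    have hsE : s = a ::ₘ b ::ₘ d ::ₘ (r + Multiset.replicate c 1) := by
      rw [hseq, hu, hcs]
      simp only [Multiset.cons_add]
    have htE : t = x ::ₘ y ::ₘ (v + Multiset.replicate (c + 1) 1) := by
      rw [hteq, hv, hct]
      simp only [Multiset.cons_add]
    have hvy2 : ∀ z ∈ v, 2 ≤ z := fun z hz => ht2 z (by rw [hv]; simp [hz])
    have hx2 : 2 ≤ x := ht2 x (by rw [hv]; simp)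
    have hy2 : 2 ≤ y := ht2 y (by rw [hv]; simp)
    -- decomposition of `E(s)`
    have hdr : ∀ z ∈ d ::ₘ r, 2 ≤ z := by
      intro z hz
      rcases Multiset.mem_cons.mp hz with h | h
      · exact h ▸ hd
      · exact hr z h
    have hbdr : ∀ z ∈ b ::ₘ d ::ₘ r, 2 ≤ z := by
      intro z hz
      rcases Multiset.mem_cons.mp hz with h | h
      · exact h ▸ hb
      · exact hdr z h
    have hdec : ∃ Z, elemSym (c + 2) s = a * b ::ₘ Z ∧ ∀ z ∈ Z, a * d ≤ z := by
      obtain ⟨W, hW, hW2⟩ := elemSym_top c (d ::ₘ r) hdr
      rw [Multiset.cons_add] at hW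
      refine ⟨elemSym (c + 2) (b ::ₘ d ::ₘ (r + Multiset.replicate c 1)) +
        ((elemSym (c + 1) (d ::ₘ (r + Multiset.replicate c 1))).map (fun x => a * x) +
          (W.map (fun x => b * x)).map (fun x => a * x)), ?_, ?_⟩
      · rw [hsE, elemSym_cons (c + 1) a, elemSym_cons c b, hW]
        simp only [Multiset.map_add, Multiset.map_cons, mul_one, Multiset.add_cons]
      · intro z hz
        rw [Multiset.mem_add, Multiset.mem_add] at hz
        rcases hz with hz | hz | hz
        · have h1 := zero_notMem_of c hbdr
          have h2 := count_one_of c hbdr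
          have h3 := nonOne_of c hbdr
          simp only [Multiset.cons_add] at h1 h2 h3
          have := min_prod h1 h2 h3 hbd hrd hz
          exact le_trans (Nat.mul_le_mul_right d hab) this
        · obtain ⟨w, hw, rfl⟩ := Multiset.mem_map.mp hz
          have h1 := zero_notMem_of c hdr
          have h2 := count_one_of c hdr
          simp only [Multiset.cons_add] at h1 h2
          apply Nat.mul_le_mul_left
          apply le_of_few_ones h1 _ (by omega) hw
          intro y' hy' hy1
          rcases Multiset.mem_cons.mp hy' with h | h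
          · exact h ▸ le_rfl
          · rcases Multiset.mem_add.mp h with h | h
            · exact hrd y' h
            · exact absurd (Multiset.eq_of_mem_replicate h) hy1
        · obtain ⟨w', hw', rfl⟩ := Multiset.mem_map.mp hz
          obtain ⟨w, hw, rfl⟩ := Multiset.mem_map.mp hw'
          obtain ⟨y', hy', hyw⟩ := hW2 w hw
          have hdy : d ≤ y' := by
            rcases Multiset.mem_cons.mp hy' with h | h
            · exact h ▸ le_rfl
            · exact hrd y' h
          apply Nat.mul_le_mul_left
          nlinarith
    obtain ⟨Z, hZ, hZ2⟩ := hdec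
    -- the two smallest entries of `t`
    have hxyE : x ::ₘ y ::ₘ 0 ≤ elemSym (c + 2) t := by
      rw [htE, elemSym_cons (c + 1) x, elemSym_cons (c + 1) y]
      have hyv : ∀ z ∈ y ::ₘ v, 2 ≤ z := by
        intro z hz
        rcases Multiset.mem_cons.mp hz with h | h
        · exact h ▸ hy2
        · exact hvy2 z h
      have h1 := Multiset.map_le_map (f := fun z => x * z) (one_le_elemSym (c + 1) (y ::ₘ v) hyv)
      have h2 := Multiset.map_le_map (f := fun z => y * z) (one_le_elemSym (c + 1) v hvy2)
      rw [Multiset.cons_add] at h1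
      simp only [Multiset.map_singleton, mul_one] at h1 h2
      have h3 := add_le_add (le_trans h2 (Multiset.le_add_left _
        (elemSym (c + 2) (v + Multiset.replicate (c + 1) 1)))) h1
      rw [Multiset.singleton_add, ← Multiset.cons_zero, Multiset.cons_swap] at h3
      exact h3
    have hxy1 : a * b * (a * d) ≤ x * y := by
      rw [← h, hZ] at hxyE
      have hbd' : a * b ≤ a * d := Nat.mul_le_mul_left a hbd
      by_cases hx : x = a * b
      · rw [hx, Multiset.cons_le_cons_iff, Multiset.cons_zero, Multiset.singleton_le] at hxyE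
        rw [hx]
        exact Nat.mul_le_mul_left _ (hZ2 y hxyE)
      · have h1 : x ∈ a * b ::ₘ Z := Multiset.mem_of_le hxyE (by simp)
        rcases Multiset.mem_cons.mp h1 with h2 | h2
        · exact absurd h2 hx
        · have h3 := hZ2 x h2
          exact Nat.mul_le_mul (le_trans hbd' h3) (le_trans h3 hxy)
    set P := a * (b * d) with hPdef
    have hP0 : 0 < P := by positivity
    have haP : a * b * (a * d) = a * P := by rw [hPdef]; ring
    have hPaP : P < a * P := by nlinarith
    rw [haP] at hxy1
    have hpairs : ∀ p q : ℕ, p ::ₘ q ::ₘ 0 ≤ nonOne t → a * P - 1 < p * q := by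
      intro p q hpq
      rw [hv] at hpq
      have := pair_min hxy hvy hpq
      omega
    -- small members of `E(s)` are entries of `t`
    have hsub : ∀ X : Multiset ℕ, (∀ e ∈ X, e < a * P) → X ≤ elemSym (c + 2) s →
        X ≤ nonOne t := by
      intro X hX1 hX2
      rw [Multiset.le_iff_count]
      intro e
      by_cases he : e ∈ X
      · have h1 := count_small (c + 1) (a * P - 1) (nonOne t) ht2 hpairs e
          (by have := hX1 e he; omega)
        rw [← hct, ← eq_of_nonOne rfl, hct] at h1
        rw [← h1]
        have h2 := Multiset.count_le_of_le e hX2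
        rw [h] at h2
        exact h2
      · rw [Multiset.count_eq_zero.mpr he]
        exact Nat.zero_le _
    have e1 : 4 ≤ b * d := by nlinarith
    have e2 : 4 ≤ a * d := by nlinarith
    have e3 : 4 ≤ a * b := by nlinarith
    have e4 : 8 ≤ P := by rw [hPdef]; nlinarith
    have f1 : b * d ≤ P := by rw [hPdef]; exact Nat.le_mul_of_pos_left _ (by omega)
    have f2 : a * d ≤ P := by
      rw [hPdef]
      exact Nat.mul_le_mul_left a (Nat.le_mul_of_pos_left d (by omega))
    have f3 : a * b ≤ P := by
      rw [hPdef]
      exact Nat.mul_le_mul_left a (Nat.le_mul_of_pos_right b (by omega))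
    have e5 : c * 8 ≤ c * P := Nat.mul_le_mul_left c e4
    have hsum1 : s.sum = a + (b + (d + (r.sum + c))) := by
      rw [hsE]
      simp only [Multiset.sum_add, Multiset.sum_cons, Multiset.sum_replicate, smul_eq_mul,
        mul_one]
    have hcardr : card r + 3 + c = card s := by
      rw [hsE]
      simp only [Multiset.card_add, Multiset.card_cons, Multiset.card_replicate]
      omega
    by_cases hz : ∃ z ∈ r, z < P
    · -- a fourth entry below `P`
      obtain ⟨z, hz, hzP⟩ := hz
      have hdz : d ≤ z := hrd z hz
      obtain ⟨r', hr'⟩ := Multiset.exists_cons_of_mem hz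
      have hr2 : ∀ w ∈ r', 2 ≤ w := fun w hw => hr w (by rw [hr']; simp [hw])
      have h4 := small_four c a b d z r' hr2
      rw [show a ::ₘ b ::ₘ d ::ₘ z ::ₘ (r' + Multiset.replicate c 1) = s by
        rw [hsE, hr', Multiset.cons_add]] at h4
      have haz : a * z < a * P := Nat.mul_lt_mul_of_pos_left hzP (by omega)
      have hbase : a * z ::ₘ b * d ::ₘ a * d ::ₘ a * b ::ₘ Multiset.replicate c P ≤ nonOne t := by
        apply hsub
        · intro e he
          simp only [Multiset.mem_cons] at he
          rcases he with h | h | h | h | h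
          · omega
          · omega
          · omega
          · omega
          · rw [Multiset.eq_of_mem_replicate h]
            exact hPaP
        · refine le_trans ?_ h4
          apply Multiset.cons_le_cons
          apply Multiset.cons_le_cons
          apply Multiset.cons_le_cons
          apply Multiset.cons_le_cons
          exact Multiset.le_add_left _ _
      have hbcard := Multiset.card_le_card hbase
      simp only [Multiset.card_cons, Multiset.card_replicate] at hbcard
      refine ⟨?_, hcard, by omega⟩
      by_cases hzad : z < a * d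
      · have hbig : a * z ::ₘ b * d ::ₘ a * d ::ₘ a * b ::ₘ
            (Multiset.replicate c (a * (b * z)) + Multiset.replicate c P) ≤ nonOne t := by
          apply hsub _ _ h4
          intro e he
          simp only [Multiset.mem_cons, Multiset.mem_add] at he
          rcases he with h | h | h | h | h | h
          · omega
          · omega
          · omega
          · omega
          · rw [Multiset.eq_of_mem_replicate h, hPdef]
            have : b * z < b * (a * d) := Nat.mul_lt_mul_of_pos_left hzad (by omega)
            have h2 : a * (b * z) < a * (b * (a * d)) := Nat.mul_lt_mul_of_pos_left this (by omega)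
            calc a * (b * z) < a * (b * (a * d)) := h2
              _ = a * (a * (b * d)) := by ring
          · rw [Multiset.eq_of_mem_replicate h]
            exact hPaP
        obtain ⟨w, hw⟩ := Multiset.le_iff_exists_add.mp hbig
        have hsum2 : t.sum = a * z + (b * d + (a * d + (a * b + (c * (a * (b * z)) + c * P)))) +
            w.sum + (c + 1) := by
          rw [hteq, hw, hct]
          simp only [Multiset.sum_add, Multiset.sum_cons, Multiset.sum_replicate, smul_eq_mul,
            mul_one]
        have g1 : 4 ≤ a * z := by nlinarith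
        have g2 : 8 ≤ a * (b * z) := by
          have : 4 ≤ b * z := by nlinarith
          nlinarith
        have g3 : c * 8 ≤ c * (a * (b * z)) := Nat.mul_le_mul_left c g2
        rw [hsum, hsum2]
        omega
      · push Not at hzad
        obtain ⟨w, hw⟩ := Multiset.le_iff_exists_add.mp hbase
        have hsum2 : t.sum = a * z + (b * d + (a * d + (a * b + c * P))) + w.sum + (c + 1) := by
          rw [hteq, hw, hct]
          simp only [Multiset.sum_add, Multiset.sum_cons, Multiset.sum_replicate, smul_eq_mul,
            mul_one]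
        have g1 : 8 ≤ a * z := by nlinarith
        rw [hsum, hsum2]
        omega
    · push Not at hz
      have hrsum : card r * P ≤ r.sum := by
        have := Multiset.card_nsmul_le_sum hz
        simpa using this
      have hM : b * d ::ₘ a * d ::ₘ a * b ::ₘ Multiset.replicate c P ≤ nonOne t := by
        apply hsub
        · intro e he
          simp only [Multiset.mem_cons] at he
          rcases he with h | h | h | h
          · omega
          · omega
          · omega
          · rw [Multiset.eq_of_mem_replicate h]
            exact hPaP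
        · rw [hsE]
          exact small_three c a b d r hr
      have hMcard := Multiset.card_le_card hM
      have hcardM : card (b * d ::ₘ a * d ::ₘ a * b ::ₘ Multiset.replicate c P) = c + 3 := by
        simp only [Multiset.card_cons, Multiset.card_replicate]
      rw [hcardM] at hMcard
      by_cases hkk : card s = 2 * c + 4
      · -- the known pairs with `2k` parts have different sums
        exfalso
        have hEq := Multiset.eq_of_le_of_card_le hM (by rw [hcardM]; omega)
        have hsum2 : t.sum = b * d + (a * d + (a * b + c * P)) + (c + 1) := by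
          rw [hteq, ← hEq, hct]
          simp only [Multiset.sum_add, Multiset.sum_cons, Multiset.sum_replicate, smul_eq_mul,
            mul_one]
        have hr1 : card r = c + 1 := by omega
        rw [hr1] at hrsum
        have hlow : (c + 1) * P = c * P + P := by ring
        have key : a * b + a * d + b * d + 1 < a + b + d + P := by
          obtain ⟨a', rfl⟩ : ∃ a', a = a' + 2 := ⟨a - 2, by omega⟩
          obtain ⟨b', rfl⟩ : ∃ b', b = b' + 2 := ⟨b - 2, by omega⟩
          obtain ⟨d', rfl⟩ : ∃ d', d = d' + 2 := ⟨d - 2, by omega⟩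
          rw [hPdef]
          ring_nf
          nlinarith [Nat.zero_le (a' * b'), Nat.zero_le (a' * d'), Nat.zero_le (b' * d'),
            Nat.zero_le (a' * b' * d')]
        omega
      · refine ⟨?_, hcard, by omega⟩
        have hr1 : c + 2 ≤ card r := by omega
        have h5 : (c + 2) * P ≤ card r * P := Nat.mul_le_mul_right P hr1
        have h6 : (c + 2) * 8 ≤ (c + 2) * P := Nat.mul_le_mul_left _ e4
        rw [hsum1]
        omega

end Pool.Agent.H20.Esp
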