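import Pool.Agent.H20.Esp.Bound

/-!
# The five other equalities and cross pairs
-/

namespace Pool.Agent.H20.Esp

open Multiset

/-- `(l, m)` is a cross pair for `k` and `j`: the two partitions `l`, `m` of `n` have the same
image under `E_k`, `j` is a part of this image, and the number of parts `1` is exactly `k - 2` in
`l` and exactly `k - 1` in `m`. -/
def IsCross (k j : ℕ) {n : ℕ} (l m : Nat.Partition n) : Prop :=
  l.parts.count 1 + 2 = k ∧ m.parts.count 1 + 1 = k ∧
    elemSym k l.parts = elemSym k m.parts ∧ j ∈ elemSym k l.parts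

/-- There is a cross pair of partitions of `n`. -/
def CrossPair (k n j : ℕ) : Prop := ∃ l m : Nat.Partition n, IsCross k j l m

theorem IsCross.bound {k n j : ℕ} {l m : Nat.Partition n} (h : IsCross k j l m) :
    3 ≤ k ∧ 9 * k + 2 ≤ n ∧ card l.parts = card m.parts ∧ 2 * k + 1 ≤ card l.parts := by
  obtain ⟨hl, hm, heq, hj⟩ := h
  have hk : k ≠ 2 := by
    rintro rfl
    have := elemSym_two_injective l.parts m.parts (zero_notMem_parts l) (zero_notMem_parts m)
      (by rw [l.parts_sum, m.parts_sum]) heq
    rw [this] at hl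
    omega
  obtain ⟨c, rfl⟩ : ∃ c, k = c + 2 := ⟨k - 2, by omega⟩
  have := cross_bound c (by omega) l.parts m.parts (zero_notMem_parts l) (zero_notMem_parts m)
    (by omega) (by omega) (by intro h0; rw [h0] at hj; simp at hj) heq
    (by rw [l.parts_sum, m.parts_sum])
  rw [l.parts_sum] at this
  omega

theorem CrossPair.bound {k n j : ℕ} (h : CrossPair k n j) : 9 * k + 2 ≤ n := by
  obtain ⟨l, m, h⟩ := h
  exact h.bound.2.1

/-- no prime divides all the parts different from `1` of both members of a cross pair -/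
theorem IsCross.prime {k n j : ℕ} {l m : Nat.Partition n} (h : IsCross k j l m) (p : ℕ)
    (hp : p.Prime) : ∃ x, (x ∈ l.parts ∨ x ∈ m.parts) ∧ x ≠ 1 ∧ ¬ p ∣ x := by
  obtain ⟨hl, hm, heq, hj⟩ := h
  by_contra hcon
  push Not at hcon
  have key : ∀ q : Nat.Partition n, (∀ x ∈ q.parts, x ≠ 1 → p ∣ x) →
      ∃ r, n = q.parts.count 1 + p * r := by
    intro q hq
    have h1 : p ∣ (nonOne q.parts).sum := by
      apply Multiset.dvd_sum
      intro x hx
      have := mem_nonOne.mp hx
      exact hq x this.1 this.2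
    obtain ⟨r, hr⟩ := h1
    refine ⟨r, ?_⟩
    have h2 := q.parts_sum
    rw [eq_of_nonOne (s := q.parts) rfl, Multiset.sum_add, Multiset.sum_replicate, smul_eq_mul,
      mul_one, hr] at h2
    omega
  obtain ⟨r1, h1⟩ := key l (fun x hx hx1 => hcon x (Or.inl hx) hx1)
  obtain ⟨r2, h2⟩ := key m (fun x hx hx1 => hcon x (Or.inr hx) hx1)
  have h3 : p * r1 = p * r2 + 1 := by omega
  have h4 : p ∣ 1 := by
    have h5 : p ∣ p * r2 + 1 := h3 ▸ Dvd.intro r1 rfl
    exact (Nat.dvd_add_right (Dvd.intro r2 rfl)).mp h5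
  exact hp.one_lt.ne' (Nat.dvd_one.mp h4)

/-- all collisions in which `j` occurs are cross pairs -/
lemma eq_or_cross {k n j : ℕ} (hk : 2 ≤ k) (hj : Jv j) (l m : Nat.Partition n)
    (hne : (elemSym k l.parts).count j ≠ 0) (h : elemSym k l.parts = elemSym k m.parts) :
    l = m ∨ CrossPair k n j := by
  have hjl : j ∈ elemSym k l.parts := Multiset.count_ne_zero.mp hne
  have hjm : j ∈ elemSym k m.parts := h ▸ hjl
  have h1 := ones_of_mem (zero_notMem_parts l) hj hjl
  have h2 := ones_of_mem (zero_notMem_parts m) hj hjm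
  have hone : (l.parts.count 1).choose k = (m.parts.count 1).choose k := by
    rw [← count_one _ _ (zero_notMem_parts l), ← count_one _ _ (zero_notMem_parts m), h]
  by_cases hl : k ≤ l.parts.count 1 + 1
  · by_cases hm : k ≤ m.parts.count 1 + 1
    · left
      obtain ⟨c, rfl⟩ : ∃ c, k = c + 1 := ⟨k - 1, by omega⟩
      exact Nat.Partition.ext (elemSym_injective c _ _ (zero_notMem_parts l)
        (zero_notMem_parts m) (by omega) (by omega) h)
    · right
      rw [Nat.choose_eq_zero_of_lt (show m.parts.count 1 < k by omega),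
        Nat.choose_eq_zero_iff] at hone
      exact ⟨m, l, by omega, by omega, h.symm, hjm⟩
  · by_cases hm : k ≤ m.parts.count 1 + 1
    · right
      rw [Nat.choose_eq_zero_of_lt (show l.parts.count 1 < k by omega), eq_comm,
        Nat.choose_eq_zero_iff] at hone
      exact ⟨l, m, by omega, by omega, h, hjl⟩
    · left
      obtain ⟨c, rfl⟩ : ∃ c, k = c + 2 := ⟨k - 2, by omega⟩
      exact Nat.Partition.ext (same_type c j _ _ (zero_notMem_parts l) (zero_notMem_parts m)
        (by omega) (by omega) hj hjl h)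

lemma R_eq_S {k n j : ℕ} (hk : 2 ≤ k) (hj : Jv j) (h : ¬ CrossPair k n j) :
    R k j n = S k j n := by
  unfold S
  apply R_eq
  intro l m _ _ hne heq
  rcases eq_or_cross hk hj l m hne heq with h1 | h1
  · exact h1
  · exact absurd h1 h

lemma R_le_S (k n j : ℕ) : R k j n ≤ S k j n := by
  classical
  unfold R S imageSet
  set T := (Finset.univ : Finset (Nat.Partition n)).filter (fun l => k ≤ card l.parts) with hT
  calc ∑ m ∈ T.image (fun l => elemSym k l.parts), (m.count j : ℤ)
      ≤ ∑ m ∈ T.image (fun l => elemSym k l.parts),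
          ((T.filter (fun l => elemSym k l.parts = m)).card • (m.count j : ℤ)) := by
        apply Finset.sum_le_sum
        intro m hm
        obtain ⟨l, hl, hlm⟩ := Finset.mem_image.mp hm
        have hpos : 0 < (T.filter (fun l => elemSym k l.parts = m)).card :=
          Finset.card_pos.mpr ⟨l, Finset.mem_filter.mpr ⟨hl, hlm⟩⟩
        rw [nsmul_eq_mul]
        have h1 : (1 : ℤ) ≤ ((T.filter (fun l => elemSym k l.parts = m)).card : ℤ) := by
          exact_mod_cast hpos
        have h2 : (0 : ℤ) ≤ (m.count j : ℤ) := by positivity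
        nlinarith
    _ = ∑ l ∈ T, ((elemSym k l.parts).count j : ℤ) := by
        rw [Finset.sum_comp (fun m : Multiset ℕ => (m.count j : ℤ))
          (fun l : Nat.Partition n => elemSym k l.parts)]
    _ ≤ ∑ l : Nat.Partition n, ((elemSym k l.parts).count j : ℤ) := by
        apply Finset.sum_le_sum_of_subset_of_nonneg (Finset.subset_univ _)
        intro l _ _
        positivity

lemma R_lt_S {k n j : ℕ} (h : CrossPair k n j) : R k j n < S k j n := by
  classical
  obtain ⟨l, m, hl, hm, heq, hj⟩ := h
  have hlm : l ≠ m := by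
    rintro rfl
    omega
  have hcard : ∀ q : Nat.Partition n, elemSym k q.parts = elemSym k l.parts →
      k ≤ card q.parts := by
    intro q hq
    by_contra hcon
    push Not at hcon
    have h0 : elemSym k q.parts = 0 := by
      rw [← Multiset.card_eq_zero, card_elemSym, Nat.choose_eq_zero_of_lt hcon]
    rw [← hq, h0] at hj
    simp at hj
  unfold R S imageSet
  set T := (Finset.univ : Finset (Nat.Partition n)).filter (fun l => k ≤ card l.parts) with hT
  have hlT : l ∈ T := Finset.mem_filter.mpr ⟨Finset.mem_univ _, hcard l rfl⟩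
  have hmT : m ∈ T := Finset.mem_filter.mpr ⟨Finset.mem_univ _, hcard m heq.symm⟩
  calc ∑ m ∈ T.image (fun l => elemSym k l.parts), (m.count j : ℤ)
      < ∑ m ∈ T.image (fun l => elemSym k l.parts),
          ((T.filter (fun l => elemSym k l.parts = m)).card • (m.count j : ℤ)) := by
        apply Finset.sum_lt_sum
        · intro m hm
          obtain ⟨l, hl, hlm⟩ := Finset.mem_image.mp hm
          have hpos : 0 < (T.filter (fun l => elemSym k l.parts = m)).card :=
            Finset.card_pos.mpr ⟨l, Finset.mem_filter.mpr ⟨hl, hlm⟩⟩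
          rw [nsmul_eq_mul]
          have h1 : (1 : ℤ) ≤ ((T.filter (fun l => elemSym k l.parts = m)).card : ℤ) := by
            exact_mod_cast hpos
          have h2 : (0 : ℤ) ≤ (m.count j : ℤ) := by positivity
          nlinarith
        · refine ⟨elemSym k l.parts, Finset.mem_image.mpr ⟨l, hlT, rfl⟩, ?_⟩
          have htwo : 1 < (T.filter (fun q => elemSym k q.parts = elemSym k l.parts)).card := by
            rw [Finset.one_lt_card]
            exact ⟨l, Finset.mem_filter.mpr ⟨hlT, rfl⟩, m,
              Finset.mem_filter.mpr ⟨hmT, heq.symm⟩, hlm⟩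
          rw [nsmul_eq_mul]
          have h1 : (2 : ℤ) ≤
              ((T.filter (fun q => elemSym k q.parts = elemSym k l.parts)).card : ℤ) := by
            exact_mod_cast htwo
          have h2 : (1 : ℤ) ≤ ((elemSym k l.parts).count j : ℤ) := by
            exact_mod_cast Multiset.one_le_count_iff_mem.mpr hj
          nlinarith
    _ = ∑ l ∈ T, ((elemSym k l.parts).count j : ℤ) := by
        rw [Finset.sum_comp (fun m : Multiset ℕ => (m.count j : ℤ))
          (fun l : Nat.Partition n => elemSym k l.parts)]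
    _ ≤ ∑ l : Nat.Partition n, ((elemSym k l.parts).count j : ℤ) := by
        apply Finset.sum_le_sum_of_subset_of_nonneg (Finset.subset_univ _)
        intro l _ _
        positivity

/-- `R ≤ S`, with equality exactly when there is no cross pair of partitions of `n` -/
theorem R_S {k j : ℕ} (hk : 2 ≤ k) (hj : Jv j) (n : ℕ) :
    R k j n ≤ S k j n ∧ (R k j n = S k j n ↔ ¬ CrossPair k n j) := by
  refine ⟨R_le_S k n j, ?_, R_eq_S hk hj⟩
  intro h hc
  have := R_lt_S hc
  omega

/-- iterated differences only see the values from `n` to `n + m` -/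
lemma fwdDiff_congr (m : ℕ) (f g : ℕ → ℤ) (n : ℕ) (h : ∀ x, n ≤ x → x ≤ n + m → f x = g x) :
    (fwdDiff 1)^[m] f n = (fwdDiff 1)^[m] g n := by
  induction m generalizing f g with
  | zero => exact h n le_rfl le_rfl
  | succ m ih =>
    rw [Function.iterate_succ_apply, Function.iterate_succ_apply]
    apply ih
    intro x hx1 hx2
    rw [fwdDiff, fwdDiff, h x hx1 (by omega), h (x + 1) (by omega) (by omega)]

/-- a function with zero initial values and zero iterated differences vanishes -/
lemma eq_zero_of_fwdDiff (m : ℕ) (g : ℕ → ℤ) (h0 : ∀ i < m, g i = 0)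
    (h : ∀ n, (fwdDiff 1)^[m] g n = 0) : ∀ n, g n = 0 := by
  induction m generalizing g with
  | zero => exact h
  | succ m ih =>
    have h1 := ih (fwdDiff 1 g) (by
      intro i hi
      rw [fwdDiff, h0 i (by omega), h0 (i + 1) (by omega), sub_zero]) (by
      intro n
      rw [← Function.iterate_succ_apply]
      exact h n)
    intro n
    induction n with
    | zero => exact h0 0 (by omega)
    | succ n ihn =>
      have := h1 n
      rw [fwdDiff, ihn, sub_zero] at this
      exact this

lemma iter_sub (m : ℕ) (f g : ℕ → ℤ) (n : ℕ) :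
    (fwdDiff 1)^[m] (fun x => f x - g x) n = (fwdDiff 1)^[m] f n - (fwdDiff 1)^[m] g n := by
  induction m generalizing f g with
  | zero => rfl
  | succ m ih =>
    have h : fwdDiff 1 (fun x => f x - g x) = fun x => fwdDiff 1 f x - fwdDiff 1 g x := by
      funext x
      simp only [fwdDiff]
      ring
    simp only [Function.iterate_succ_apply]
    rw [h, ih]

lemma iter_two (m : ℕ) (f : ℕ → ℤ) (n : ℕ) :
    (fwdDiff 1)^[m] (fun x => f x + f (x + 1)) n =
      (fwdDiff 1)^[m] f n + (fwdDiff 1)^[m] f (n + 1) := by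
  induction m generalizing f with
  | zero => rfl
  | succ m ih =>
    have h : fwdDiff 1 (fun x => f x + f (x + 1)) =
        fun x => fwdDiff 1 f x + fwdDiff 1 f (x + 1) := by
      funext x
      simp only [fwdDiff]
      ring
    simp only [Function.iterate_succ_apply]
    rw [h, ih]

lemma iter_three (m : ℕ) (f : ℕ → ℤ) (n : ℕ) :
    (fwdDiff 1)^[m] (fun x => f x + f (x + 1) + f (x + 2)) n =
      (fwdDiff 1)^[m] f n + (fwdDiff 1)^[m] f (n + 1) + (fwdDiff 1)^[m] f (n + 2) := by
  induction m generalizing f with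
  | zero => rfl
  | succ m ih =>
    have h : fwdDiff 1 (fun x => f x + f (x + 1) + f (x + 2)) =
        fun x => fwdDiff 1 f x + fwdDiff 1 f (x + 1) + fwdDiff 1 f (x + 2) := by
      funext x
      simp only [fwdDiff, show x + 1 + 2 = x + 2 + 1 by ring]
      ring
    simp only [Function.iterate_succ_apply]
    rw [h, ih]

/-- `Δ^{k-1} S_{k,j} = Δ R_{2,j}` -/
lemma iter_S {k j : ℕ} (hk : 2 ≤ k) (hj : Jv j) (n : ℕ) :
    (fwdDiff 1)^[k - 1] (S k j) n = fwdDiff 1 (R 2 j) n := by
  obtain ⟨m, rfl⟩ : ∃ m, k = m + 2 := ⟨k - 2, by omega⟩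
  rw [show m + 2 - 1 = m + 1 by omega, Function.iterate_succ_apply', fwdDiff_iter_S m j hj]

lemma loss_zero {k j : ℕ} (hk : 2 ≤ k) (hj : Jv j) {n : ℕ} (hn : n < 9 * k + 2) :
    R k j n = S k j n :=
  R_eq_S hk hj (fun h => by have := h.bound; omega)

lemma no_cross_of_eq {k j n : ℕ} (h : S k j n - R k j n = 0) : ¬ CrossPair k n j := by
  intro hc
  have := R_lt_S hc
  omega

lemma loss_nonneg (k j n : ℕ) : 0 ≤ S k j n - R k j n := by
  have := R_le_S k n j
  omega

/-- one-term equalities -/
theorem iff_one {k j : ℕ} (hk : 2 ≤ k) (hj : Jv j) (F : ℕ → ℤ)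
    (hF : ∀ n, fwdDiff 1 (R 2 j) n = F n) :
    (∀ n, (fwdDiff 1)^[k - 1] (R k j) n = F n) ↔ ∀ n, ¬ CrossPair k n j := by
  constructor
  · intro h
    have h1 : ∀ n, (fun x => S k j x - R k j x) n = 0 := by
      apply eq_zero_of_fwdDiff (k - 1)
      · intro i hi
        have := loss_zero (n := i) hk hj (by omega)
        show S k j i - R k j i = 0
        omega
      · intro n
        rw [iter_sub, iter_S hk hj, h n, hF n, sub_self]
    intro n
    exact no_cross_of_eq (h1 n)
  · intro h n
    rw [fwdDiff_congr (k - 1) (R k j) (S k j) n (fun x _ _ => R_eq_S hk hj (h x)),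
      iter_S hk hj, hF n]

/-- two-term equalities -/
theorem iff_two {k j : ℕ} (hk : 2 ≤ k) (hj : Jv j) (F : ℕ → ℤ)
    (hF : ∀ n, fwdDiff 1 (fun m => R 2 j m + R 2 j (m + 1)) n = F n) :
    (∀ n, (fwdDiff 1)^[k - 1] (fun m => R k j m + R k j (m + 1)) n = F n) ↔
      ∀ n, ¬ CrossPair k n j := by
  have hF' : ∀ n, fwdDiff 1 (R 2 j) n + fwdDiff 1 (R 2 j) (n + 1) = F n := by
    intro n
    rw [← hF n]
    exact (iter_two 1 (R 2 j) n).symm
  constructor
  · intro h
    have h1 : ∀ n, (fun x => (fun y => S k j y - R k j y) x +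
        (fun y => S k j y - R k j y) (x + 1)) n = 0 := by
      apply eq_zero_of_fwdDiff (k - 1)
      · intro i hi
        have h2 := loss_zero (n := i) hk hj (by omega)
        have h3 := loss_zero (n := i + 1) hk hj (by omega)
        show (S k j i - R k j i) + (S k j (i + 1) - R k j (i + 1)) = 0
        omega
      · intro n
        rw [iter_two, iter_sub, iter_sub, iter_S hk hj, iter_S hk hj]
        have h2 := h n
        rw [iter_two] at h2
        have h3 := hF' n
        omega
    intro n
    apply no_cross_of_eq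
    have h2 : (S k j n - R k j n) + (S k j (n + 1) - R k j (n + 1)) = 0 := h1 n
    have h3 := loss_nonneg k j n
    have h4 := loss_nonneg k j (n + 1)
    omega
  · intro h n
    rw [iter_two, fwdDiff_congr (k - 1) (R k j) (S k j) n (fun x _ _ => R_eq_S hk hj (h x)),
      fwdDiff_congr (k - 1) (R k j) (S k j) (n + 1) (fun x _ _ => R_eq_S hk hj (h x)),
      iter_S hk hj, iter_S hk hj, hF' n]

/-- three-term equalities -/
theorem iff_three {k j : ℕ} (hk : 2 ≤ k) (hj : Jv j) (F : ℕ → ℤ)
    (hF : ∀ n, fwdDiff 1 (fun m => R 2 j m + R 2 j (m + 1) + R 2 j (m + 2)) n = F n) :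
    (∀ n, (fwdDiff 1)^[k - 1] (fun m => R k j m + R k j (m + 1) + R k j (m + 2)) n = F n) ↔
      ∀ n, ¬ CrossPair k n j := by
  have hF' : ∀ n, fwdDiff 1 (R 2 j) n + fwdDiff 1 (R 2 j) (n + 1) +
      fwdDiff 1 (R 2 j) (n + 2) = F n := by
    intro n
    rw [← hF n]
    exact (iter_three 1 (R 2 j) n).symm
  constructor
  · intro h
    have h1 : ∀ n, (fun x => (fun y => S k j y - R k j y) x +
        (fun y => S k j y - R k j y) (x + 1) + (fun y => S k j y - R k j y) (x + 2)) n = 0 := by
      apply eq_zero_of_fwdDiff (k - 1)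
      · intro i hi
        have h2 := loss_zero (n := i) hk hj (by omega)
        have h3 := loss_zero (n := i + 1) hk hj (by omega)
        have h4 := loss_zero (n := i + 2) hk hj (by omega)
        show (S k j i - R k j i) + (S k j (i + 1) - R k j (i + 1)) +
          (S k j (i + 2) - R k j (i + 2)) = 0
        omega
      · intro n
        rw [iter_three, iter_sub, iter_sub, iter_sub, iter_S hk hj, iter_S hk hj, iter_S hk hj]
        have h2 := h n
        rw [iter_three] at h2
        have h3 := hF' n
        omega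
    intro n
    apply no_cross_of_eq
    have h2 : (S k j n - R k j n) + (S k j (n + 1) - R k j (n + 1)) +
        (S k j (n + 2) - R k j (n + 2)) = 0 := h1 n
    have h3 := loss_nonneg k j n
    have h4 := loss_nonneg k j (n + 1)
    have h5 := loss_nonneg k j (n + 2)
    omega
  · intro h n
    rw [iter_three, fwdDiff_congr (k - 1) (R k j) (S k j) n (fun x _ _ => R_eq_S hk hj (h x)),
      fwdDiff_congr (k - 1) (R k j) (S k j) (n + 1) (fun x _ _ => R_eq_S hk hj (h x)),
      fwdDiff_congr (k - 1) (R k j) (S k j) (n + 2) (fun x _ _ => R_eq_S hk hj (h x)),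
      iter_S hk hj, iter_S hk hj, iter_S hk hj, hF' n]

/-- the stable range -/
lemma range_one {k j : ℕ} (hk : 2 ≤ k) (hj : Jv j) {n : ℕ} (hn : n ≤ 8 * k + 2) :
    (fwdDiff 1)^[k - 1] (R k j) n = fwdDiff 1 (R 2 j) n := by
  rw [fwdDiff_congr (k - 1) (R k j) (S k j) n (fun x _ hx => loss_zero hk hj (by omega)),
    iter_S hk hj]

lemma range_two {k j : ℕ} (hk : 2 ≤ k) (hj : Jv j) {n : ℕ} (hn : n ≤ 8 * k + 1) :
    (fwdDiff 1)^[k - 1] (fun m => R k j m + R k j (m + 1)) n =
      fwdDiff 1 (fun m => R 2 j m + R 2 j (m + 1)) n := by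
  rw [iter_two, range_one hk hj (by omega), range_one hk hj (by omega)]
  exact (iter_two 1 (R 2 j) n).symm

lemma range_three {k j : ℕ} (hk : 2 ≤ k) (hj : Jv j) {n : ℕ} (hn : n ≤ 8 * k) :
    (fwdDiff 1)^[k - 1] (fun m => R k j m + R k j (m + 1) + R k j (m + 2)) n =
      fwdDiff 1 (fun m => R 2 j m + R 2 j (m + 1) + R 2 j (m + 2)) n := by
  rw [iter_three, range_one hk hj (by omega), range_one hk hj (by omega),
    range_one hk hj (by omega)]
  exact (iter_three 1 (R 2 j) n).symm

end Pool.Agent.H20.Esp
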