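import Mathlib

/-!
# Elementary symmetric partitions: definitions

`elemSym k s` is the multiset of all products of `k` entries of `s`.
-/

namespace Pool.Agent.H20.Esp

/-- `E_k(s)`: the multiset of the products of the `k`-element sub-multisets of `s`, kept with
repetition. -/
def elemSym (k : ℕ) (s : Multiset ℕ) : Multiset ℕ := (s.powersetCard k).map Multiset.prod

/-- `I_k(n)`: the set of the multisets `E_k(λ)`, where `λ` runs over the partitions of `n` with at
least `k` parts. -/
def imageSet (k n : ℕ) : Finset (Multiset ℕ) :=
  ((Finset.univ : Finset (Nat.Partition n)).filter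
    (fun l => k ≤ Multiset.card l.parts)).image (fun l => elemSym k l.parts)

/-- `R_{k,j}(n)`: the total number of parts equal to `j` in the members of `I_k(n)`. -/
def R (k j n : ℕ) : ℤ := ∑ m ∈ imageSet k n, (m.count j : ℤ)

/-- `N_j(n)`: the total number of parts equal to `j` in all partitions of `n`; it is `0` for
`n < 0`. -/
def N (j : ℕ) (n : ℤ) : ℤ :=
  if n < 0 then 0 else ∑ l : Nat.Partition n.toNat, (l.parts.count j : ℤ)

end Pool.Agent.H20.Esp
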