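import Pool.Agent.H20.Esp.Two

/-!
# The six identities for `k = 2`
-/

set_option linter.unusedSimpArgs false

namespace Pool.Agent.H20.Esp

open Multiset

lemma count_two_six (s : Multiset ℕ) (hs : 0 ∉ s) :
    (elemSym 2 s).count 6 = s.count 1 * s.count 6 + s.count 2 * s.count 3 := by
  induction s using Multiset.induction_on with
  | empty => simp [elemSym_succ_nil]
  | cons a s ih =>
    have hs' : 0 ∉ s := fun h => hs (Multiset.mem_cons_of_mem h)
    have ha : 0 < a := Nat.pos_of_ne_zero (fun h => hs (by simp [h]))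
    have ih' := ih hs'
    by_cases had : a ∣ 6
    · have hle := Nat.le_of_dvd (by norm_num) had
      interval_cases a
      · rw [count_two_cons' 1 6 6 (by norm_num) (by norm_num), ih']
        simp
        ring
      · rw [count_two_cons' 2 3 6 (by norm_num) (by norm_num), ih']
        simp
        ring
      · rw [count_two_cons' 3 2 6 (by norm_num) (by norm_num), ih']
        simp
        ring
      · omega
      · omega
      · rw [count_two_cons' 6 1 6 (by norm_num) (by norm_num), ih']
        simp
        ring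
    · rw [count_two_cons_of_not_dvd _ _ had, ih']
      have h1 : a ≠ 1 := by rintro rfl; exact had (by norm_num)
      have h2 : a ≠ 2 := by rintro rfl; exact had (by norm_num)
      have h3 : a ≠ 3 := by rintro rfl; exact had (by norm_num)
      have h4 : a ≠ 6 := by rintro rfl; exact had (by norm_num)
      rw [Multiset.count_cons_of_ne h1.symm, Multiset.count_cons_of_ne h2.symm,
        Multiset.count_cons_of_ne h3.symm, Multiset.count_cons_of_ne h4.symm]

lemma count_two_nine (s : Multiset ℕ) (hs : 0 ∉ s) :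
    (elemSym 2 s).count 9 = s.count 1 * s.count 9 + (s.count 3).choose 2 := by
  induction s using Multiset.induction_on with
  | empty => simp [elemSym_succ_nil]
  | cons a s ih =>
    have hs' : 0 ∉ s := fun h => hs (Multiset.mem_cons_of_mem h)
    have ha : 0 < a := Nat.pos_of_ne_zero (fun h => hs (by simp [h]))
    have ih' := ih hs'
    by_cases had : a ∣ 9
    · have hle := Nat.le_of_dvd (by norm_num) had
      interval_cases a
      · rw [count_two_cons' 1 9 9 (by norm_num) (by norm_num), ih']
        simp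
        ring
      · omega
      · rw [count_two_cons' 3 3 9 (by norm_num) (by norm_num), ih']
        simp [Nat.choose_succ_succ]
        ring
      · omega
      · omega
      · omega
      · omega
      · omega
      · rw [count_two_cons' 9 1 9 (by norm_num) (by norm_num), ih']
        simp
        ring
    · rw [count_two_cons_of_not_dvd _ _ had, ih']
      have h1 : a ≠ 1 := by rintro rfl; exact had (by norm_num)
      have h2 : a ≠ 3 := by rintro rfl; exact had (by norm_num)
      have h3 : a ≠ 9 := by rintro rfl; exact had (by norm_num)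
      rw [Multiset.count_cons_of_ne h1.symm, Multiset.count_cons_of_ne h2.symm,
        Multiset.count_cons_of_ne h3.symm]

lemma count_two_ten (s : Multiset ℕ) (hs : 0 ∉ s) :
    (elemSym 2 s).count 10 = s.count 1 * s.count 10 + s.count 2 * s.count 5 := by
  induction s using Multiset.induction_on with
  | empty => simp [elemSym_succ_nil]
  | cons a s ih =>
    have hs' : 0 ∉ s := fun h => hs (Multiset.mem_cons_of_mem h)
    have ha : 0 < a := Nat.pos_of_ne_zero (fun h => hs (by simp [h]))
    have ih' := ih hs'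
    by_cases had : a ∣ 10
    · have hle := Nat.le_of_dvd (by norm_num) had
      interval_cases a
      · rw [count_two_cons' 1 10 10 (by norm_num) (by norm_num), ih']
        simp
        ring
      · rw [count_two_cons' 2 5 10 (by norm_num) (by norm_num), ih']
        simp
        ring
      · omega
      · omega
      · rw [count_two_cons' 5 2 10 (by norm_num) (by norm_num), ih']
        simp
        ring
      · omega
      · omega
      · omega
      · omega
      · rw [count_two_cons' 10 1 10 (by norm_num) (by norm_num), ih']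
        simp
        ring
    · rw [count_two_cons_of_not_dvd _ _ had, ih']
      have h1 : a ≠ 1 := by rintro rfl; exact had (by norm_num)
      have h2 : a ≠ 2 := by rintro rfl; exact had (by norm_num)
      have h3 : a ≠ 5 := by rintro rfl; exact had (by norm_num)
      have h4 : a ≠ 10 := by rintro rfl; exact had (by norm_num)
      rw [Multiset.count_cons_of_ne h1.symm, Multiset.count_cons_of_ne h2.symm,
        Multiset.count_cons_of_ne h3.symm, Multiset.count_cons_of_ne h4.symm]

lemma zero_notMem_parts' {n : ℕ} (l : Nat.Partition n) : 0 ∉ l.parts := fun h =>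
  absurd (l.parts_pos h) (lt_irrefl 0)

lemma R_two_eq (j n : ℕ) : R 2 j n = ∑ l : Nat.Partition n, ((elemSym 2 l.parts).count j : ℤ) := by
  apply R_eq
  intro l m _ _ _ h
  exact Nat.Partition.ext (elemSym_two_injective _ _ (zero_notMem_parts' l) (zero_notMem_parts' m)
    (by rw [l.parts_sum, m.parts_sum]) h)

/-- `∑ m_a m_b` over the partitions of `n`. -/
def Q (a b n : ℕ) : ℤ := ∑ l : Nat.Partition n, ((l.parts.count a * l.parts.count b : ℕ) : ℤ)

/-- `∑ binom(m_a, 2)` over the partitions of `n`. -/
def T (a n : ℕ) : ℤ := ∑ l : Nat.Partition n, (((l.parts.count a).choose 2 : ℕ) : ℤ)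

lemma Q_comm (a b n : ℕ) : Q a b n = Q b a n := by
  unfold Q
  apply Finset.sum_congr rfl
  intro l _
  rw [mul_comm]

lemma Q_add (a b n : ℕ) (ha : 0 < a) (hab : a ≠ b) : Q a b (n + a) = Q a b n + Nn b n := by
  unfold Q Nn
  have h := sum_addPart a n ha (fun s => ((s.count a * s.count b : ℕ) : ℤ)) (by
      intro s hs
      rw [Multiset.count_eq_zero.mpr hs]
      simp)
  rw [h, ← Finset.sum_add_distrib]
  apply Finset.sum_congr rfl
  intro l _
  rw [Multiset.count_cons_self, Multiset.count_cons_of_ne hab.symm]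
  push_cast
  ring

lemma T_add (a n : ℕ) (ha : 0 < a) : T a (n + a) = T a n + Nn a n := by
  unfold T Nn
  have h := sum_addPart a n ha (fun s => (((s.count a).choose 2 : ℕ) : ℤ)) (by
      intro s hs
      rw [Multiset.count_eq_zero.mpr hs]
      simp)
  rw [h, ← Finset.sum_add_distrib]
  apply Finset.sum_congr rfl
  intro l _
  rw [Multiset.count_cons_self, Nat.choose_succ_succ, Nat.choose_one_right]
  push_cast
  ring

lemma Q_small (a b n : ℕ) (hn : n < a) : Q a b n = 0 := by
  unfold Q
  exact sum_eq_zero_of_lt a n hn (fun s => ((s.count a * s.count b : ℕ) : ℤ)) (by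
      intro s hs
      rw [Multiset.count_eq_zero.mpr hs]
      simp)

lemma R_two_four (n : ℕ) : R 2 4 n = Q 1 4 n + T 2 n := by
  rw [R_two_eq, Q, T, ← Finset.sum_add_distrib]
  apply Finset.sum_congr rfl
  intro l _
  rw [count_two_four _ (zero_notMem_parts' l)]
  push_cast
  ring

lemma R_two_six (n : ℕ) : R 2 6 n = Q 1 6 n + Q 2 3 n := by
  rw [R_two_eq, Q, Q, ← Finset.sum_add_distrib]
  apply Finset.sum_congr rfl
  intro l _
  rw [count_two_six _ (zero_notMem_parts' l)]
  push_cast
  ring

lemma R_two_nine (n : ℕ) : R 2 9 n = Q 1 9 n + T 3 n := by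
  rw [R_two_eq, Q, T, ← Finset.sum_add_distrib]
  apply Finset.sum_congr rfl
  intro l _
  rw [count_two_nine _ (zero_notMem_parts' l)]
  push_cast
  ring

lemma R_two_ten (n : ℕ) : R 2 10 n = Q 1 10 n + Q 2 5 n := by
  rw [R_two_eq, Q, Q, ← Finset.sum_add_distrib]
  apply Finset.sum_congr rfl
  intro l _
  rw [count_two_ten _ (zero_notMem_parts' l)]
  push_cast
  ring

lemma N_cast_add (j n m : ℕ) : N j ((n : ℤ) + m) = Nn j (n + m) := by
  rw [← N_natCast]
  push_cast
  rfl

theorem four (n : ℕ) : fwdDiff 1 (fun m => R 2 4 m + R 2 4 (m + 1)) n =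
    N 2 n + N 4 n + N 4 (n + 1) := by
  have e1 := Q_add 1 4 n one_pos (by norm_num)
  have e2 := Q_add 1 4 (n + 1) one_pos (by norm_num)
  have e3 := T_add 2 n (by norm_num)
  have e4 := N_cast_add 4 n 1
  rw [Nat.cast_one] at e4
  rw [fwdDiff, N_natCast, N_natCast, e4]
  simp only [R_two_four]
  have : n + 1 + 1 = n + 2 := rfl
  rw [this] at *
  linarith

theorem nine (n : ℕ) : fwdDiff 1 (fun m => R 2 9 m + R 2 9 (m + 1) + R 2 9 (m + 2)) n =
    N 3 n + N 9 n + N 9 (n + 1) + N 9 (n + 2) := by
  have e1 := Q_add 1 9 n one_pos (by norm_num)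
  have e2 := Q_add 1 9 (n + 1) one_pos (by norm_num)
  have e2' := Q_add 1 9 (n + 2) one_pos (by norm_num)
  have e3 := T_add 3 n (by norm_num)
  have e4 := N_cast_add 9 n 1
  have e5 := N_cast_add 9 n 2
  rw [Nat.cast_one] at e4
  rw [Nat.cast_ofNat] at e5
  rw [fwdDiff, N_natCast, N_natCast, e4, e5]
  simp only [R_two_nine]
  have h1 : n + 1 + 1 = n + 2 := rfl
  have h2 : n + 1 + 2 = n + 3 := rfl
  have h3 : n + 2 + 1 = n + 3 := rfl
  rw [h1] at *
  rw [h3] at *
  rw [h2]
  linarith

theorem ten (n : ℕ) : fwdDiff 1 (fun m => R 2 10 m + R 2 10 (m + 1)) n =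
    N 5 n + N 10 n + N 10 (n + 1) := by
  have e1 := Q_add 1 10 n one_pos (by norm_num)
  have e2 := Q_add 1 10 (n + 1) one_pos (by norm_num)
  have e3 := Q_add 2 5 n (by norm_num) (by norm_num)
  have e4 := N_cast_add 10 n 1
  rw [Nat.cast_one] at e4
  rw [fwdDiff, N_natCast, N_natCast, e4]
  simp only [R_two_ten]
  have : n + 1 + 1 = n + 2 := rfl
  rw [this] at *
  linarith

theorem six' (n : ℕ) : fwdDiff 1 (fun m => R 2 6 m + R 2 6 (m + 1)) n =
    N 3 n + N 6 n + N 6 (n + 1) := by
  have e1 := Q_add 1 6 n one_pos (by norm_num)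
  have e2 := Q_add 1 6 (n + 1) one_pos (by norm_num)
  have e3 := Q_add 2 3 n (by norm_num) (by norm_num)
  have e4 := N_cast_add 6 n 1
  rw [Nat.cast_one] at e4
  rw [fwdDiff, N_natCast, N_natCast, e4]
  simp only [R_two_six]
  have : n + 1 + 1 = n + 2 := rfl
  rw [this] at *
  linarith

theorem six (n : ℕ) : fwdDiff 1 (R 2 6) n = N 6 n + N 2 (n - 2) - N 3 (n - 2) := by
  have e1 := Q_add 1 6 n one_pos (by norm_num)
  rw [fwdDiff, N_natCast, R_two_six, R_two_six]
  rcases Nat.lt_or_ge n 2 with hn | hn
  · have h2 : N 2 ((n : ℤ) - 2) = 0 := by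
      unfold N
      rw [if_pos (by omega)]
    have h3 : N 3 ((n : ℤ) - 2) = 0 := by
      unfold N
      rw [if_pos (by omega)]
    rw [h2, h3]
    have h4 : Q 2 3 n = 0 := Q_small 2 3 n hn
    have h5 : Q 2 3 (n + 1) = 0 := by
      rw [Q_comm]
      exact Q_small 3 2 (n + 1) (by omega)
    linarith
  · obtain ⟨m, rfl⟩ : ∃ m, n = m + 2 := ⟨n - 2, by omega⟩
    have h2 : ((m + 2 : ℕ) : ℤ) - 2 = (m : ℤ) := by push_cast; ring
    rw [h2, N_natCast, N_natCast]
    have e2 := Q_add 2 3 m (by norm_num) (by norm_num)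
    have e3 := Q_add 3 2 m (by norm_num) (by norm_num)
    rw [Q_comm 3 2, Q_comm 3 2] at e3
    have h3 : m + 2 + 1 = m + 3 := rfl
    rw [h3] at *
    linarith

end Pool.Agent.H20.Esp
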