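import Pool.Agent.H20.Esp.Prime
import Pool.Agent.H20.Esp.TwoMain

/-!
# Small products
-/

namespace Pool.Agent.H20.Esp

open Multiset

/-- The four values `j`. -/
def Jv (j : ℕ) : Prop := j = 4 ∨ j = 6 ∨ j = 9 ∨ j = 10

lemma mem_elemSym {k e : ℕ} {s : Multiset ℕ} :
    e ∈ elemSym k s ↔ ∃ t ≤ s, card t = k ∧ t.prod = e := by
  unfold elemSym
  rw [Multiset.mem_map]
  constructor
  · rintro ⟨t, ht, rfl⟩
    rw [Multiset.mem_powersetCard] at ht
    exact ⟨t, ht.1, ht.2, rfl⟩
  · rintro ⟨t, h1, h2, rfl⟩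
    exact ⟨t, Multiset.mem_powersetCard.mpr ⟨h1, h2⟩, rfl⟩

/-- the part of a multiset different from `1` -/
def nonOne (s : Multiset ℕ) : Multiset ℕ := s.filter (fun x => x ≠ 1)

lemma ones_add_nonOne (s : Multiset ℕ) :
    Multiset.replicate (s.count 1) 1 + nonOne s = s := by
  unfold nonOne
  ext d
  rw [Multiset.count_add, Multiset.count_replicate, Multiset.count_filter]
  by_cases h : 1 = d
  · subst h
    simp
  · rw [if_neg h, if_pos (Ne.symm h), zero_add]

lemma card_nonOne (s : Multiset ℕ) : s.count 1 + card (nonOne s) = card s := by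
  conv_rhs => rw [← ones_add_nonOne s]
  rw [Multiset.card_add, Multiset.card_replicate]

lemma prod_nonOne (s : Multiset ℕ) : (nonOne s).prod = s.prod := by
  conv_rhs => rw [← ones_add_nonOne s]
  rw [Multiset.prod_add, Multiset.prod_replicate, one_pow, one_mul]

lemma mem_nonOne {s : Multiset ℕ} {x : ℕ} : x ∈ nonOne s ↔ x ∈ s ∧ x ≠ 1 := by
  unfold nonOne
  rw [Multiset.mem_filter]

lemma nonOne_le {s t : Multiset ℕ} (h : t ≤ s) : nonOne t ≤ nonOne s :=
  Multiset.filter_le_filter _ h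

lemma two_le_of_mem_nonOne {s : Multiset ℕ} (hs : 0 ∉ s) {x : ℕ} (h : x ∈ nonOne s) : 2 ≤ x := by
  rw [mem_nonOne] at h
  have h0 : x ≠ 0 := fun h' => hs (h' ▸ h.1)
  have := h.2
  omega

lemma pow_le_prod (v : Multiset ℕ) (h : ∀ x ∈ v, 2 ≤ x) : 2 ^ card v ≤ v.prod := by
  induction v using Multiset.induction_on with
  | empty => simp
  | cons a v ih =>
    rw [Multiset.card_cons, Multiset.prod_cons, pow_succ, mul_comm]
    exact Nat.mul_le_mul (h a (Multiset.mem_cons_self a v))
      (ih (fun x hx => h x (Multiset.mem_cons_of_mem hx)))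

/-- a product of at least three factors `≥ 2` is none of `4, 6, 9, 10` -/
lemma not_three (v : Multiset ℕ) (h : ∀ x ∈ v, 2 ≤ x) (j : ℕ) (hj : Jv j) (hp : v.prod = j) :
    card v ≤ 2 := by
  by_contra hcon
  push Not at hcon
  obtain ⟨a, v1, rfl⟩ : ∃ a v1, v = a ::ₘ v1 := by
    have : v ≠ 0 := by rintro rfl; simp at hcon
    obtain ⟨a, ha⟩ := Multiset.exists_mem_of_ne_zero this
    obtain ⟨t, ht⟩ := Multiset.exists_cons_of_mem ha
    exact ⟨a, t, ht⟩
  obtain ⟨b, v2, rfl⟩ : ∃ a v2, v1 = a ::ₘ v2 := by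
    have : v1 ≠ 0 := by rintro rfl; simp at hcon
    obtain ⟨a, ha⟩ := Multiset.exists_mem_of_ne_zero this
    obtain ⟨t, ht⟩ := Multiset.exists_cons_of_mem ha
    exact ⟨a, t, ht⟩
  obtain ⟨c, v3, rfl⟩ : ∃ a v3, v2 = a ::ₘ v3 := by
    have : v2 ≠ 0 := by rintro rfl; simp at hcon
    obtain ⟨a, ha⟩ := Multiset.exists_mem_of_ne_zero this
    obtain ⟨t, ht⟩ := Multiset.exists_cons_of_mem ha
    exact ⟨a, t, ht⟩
  have ha : 2 ≤ a := h a (by simp)
  have hb : 2 ≤ b := h b (by simp)
  have hc : 2 ≤ c := h c (by simp)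
  have hq : 1 ≤ v3.prod := le_trans Nat.one_le_two_pow
    (pow_le_prod v3 (fun x hx => h x (by simp [hx])))
  rw [Multiset.prod_cons, Multiset.prod_cons, Multiset.prod_cons] at hp
  have hj10 : j ≤ 10 := by rcases hj with h | h | h | h <;> omega
  have hcq : 2 ≤ c * v3.prod := by nlinarith
  have hbcq : 4 ≤ b * (c * v3.prod) := by nlinarith
  have ha2 : a = 2 := by
    by_contra hne
    have : 3 ≤ a := by omega
    have : 12 ≤ a * (b * (c * v3.prod)) := by nlinarith
    omega
  subst ha2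
  have hb2 : b = 2 := by
    by_contra hne
    have : 3 ≤ b := by omega
    have : 6 ≤ b * (c * v3.prod) := by nlinarith
    omega
  subst hb2
  have hc2 : c = 2 := by
    by_contra hne
    have : 3 ≤ c := by omega
    have : 3 ≤ c * v3.prod := by nlinarith
    omega
  subst hc2
  rcases hj with h | h | h | h <;> omega

/-- if `j` occurs in `E_k(s)` then there are at least `k - 2` ones -/
lemma ones_of_mem {k j : ℕ} {s : Multiset ℕ} (hs : 0 ∉ s) (hj : Jv j) (h : j ∈ elemSym k s) :
    k ≤ s.count 1 + 2 := by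
  obtain ⟨t, hts, hcard, hprod⟩ := mem_elemSym.mp h
  have ht0 : 0 ∉ t := fun h' => hs (Multiset.mem_of_le hts h')
  have h1 := not_three (nonOne t) (fun x hx => two_le_of_mem_nonOne ht0 hx) j hj
    (by rw [prod_nonOne, hprod])
  have h2 := card_nonOne t
  have h3 : t.count 1 ≤ s.count 1 := Multiset.count_le_of_le 1 hts
  omega

/-- a product different from `1` has a factor different from `1` -/
lemma exists_factor {K e : ℕ} {s : Multiset ℕ} (hs : 0 ∉ s) (he : e ∈ elemSym K s)
    (h1 : e ≠ 1) : ∃ y ∈ s, y ≠ 1 ∧ y ≤ e := by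
  obtain ⟨t, hts, hcard, hprod⟩ := mem_elemSym.mp he
  by_contra hcon
  push Not at hcon
  have hall : ∀ y ∈ t, y = 1 := by
    intro y hy
    by_contra hne
    have h2 := hcon y (Multiset.mem_of_le hts hy) hne
    have h3 : y ∣ e := hprod ▸ Multiset.dvd_prod hy
    have h4 : 0 < e := by
      rw [← hprod]
      apply Nat.pos_of_ne_zero
      intro h0
      exact hs (Multiset.mem_of_le hts (Multiset.prod_eq_zero_iff.mp h0))
    exact absurd (Nat.le_of_dvd h4 h3) (by omega)
  exact h1 (hprod ▸ Multiset.prod_eq_one hall)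

/-- with fewer than `K` ones every product of `K` entries is at least the smallest entry `≠ 1` -/
lemma le_of_few_ones {K e a : ℕ} {s : Multiset ℕ} (hs : 0 ∉ s) (ha : ∀ y ∈ s, y ≠ 1 → a ≤ y)
    (hK : s.count 1 < K) (he : e ∈ elemSym K s) : a ≤ e := by
  obtain ⟨t, hts, hcard, hprod⟩ := mem_elemSym.mp he
  have h1 : nonOne t ≠ 0 := by
    intro h0
    have h2 := card_nonOne t
    rw [h0, Multiset.card_zero] at h2
    have h3 : t.count 1 ≤ s.count 1 := Multiset.count_le_of_le 1 hts
    omega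
  obtain ⟨y, hy⟩ := Multiset.exists_mem_of_ne_zero h1
  have hyt := (mem_nonOne.mp hy)
  have h2 := ha y (Multiset.mem_of_le hts hyt.1) hyt.2
  have h3 : y ∣ e := hprod ▸ Multiset.dvd_prod hyt.1
  have h4 : 0 < e := by
    rw [← hprod]
    apply Nat.pos_of_ne_zero
    intro h0
    exact hs (Multiset.mem_of_le hts (Multiset.prod_eq_zero_iff.mp h0))
  exact le_trans h2 (Nat.le_of_dvd h4 h3)

/-- the sum over the partitions of `n` of the multiplicity of `j` in `E_k` -/
def S (k j n : ℕ) : ℤ := ∑ l : Nat.Partition n, ((elemSym k l.parts).count j : ℤ)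

lemma S_succ (k j n : ℕ) (hk : 2 ≤ k) (hj : Jv j) :
    S (k + 1) j (n + 1) = S (k + 1) j n + S k j n := by
  classical
  unfold S
  have h := sum_addPart 1 n one_pos
    (fun s => if 1 ∈ s then ((elemSym (k + 1) s).count j : ℤ) else 0) (by
      intro s hs
      simp only [if_neg hs])
  have h1 : ∀ m (l : Nat.Partition m),
      (if 1 ∈ l.parts then ((elemSym (k + 1) l.parts).count j : ℤ) else 0) =
        ((elemSym (k + 1) l.parts).count j : ℤ) := by
    intro m l
    by_cases h1 : 1 ∈ l.parts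
    · rw [if_pos h1]
    · rw [if_neg h1]
      have : j ∉ elemSym (k + 1) l.parts := by
        intro hmem
        have := ones_of_mem (zero_notMem_parts l) hj hmem
        rw [Multiset.count_eq_zero.mpr h1] at this
        omega
      rw [Multiset.count_eq_zero.mpr this]
      rfl
  simp only [h1] at h
  rw [h, ← Finset.sum_add_distrib]
  apply Finset.sum_congr rfl
  intro l _
  rw [if_pos (Multiset.mem_cons_self 1 _)]
  have h2 := count_cons k 1 j one_pos l.parts
  rw [one_mul] at h2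
  rw [h2]
  push_cast
  ring

lemma fwdDiff_S (k j : ℕ) (hk : 2 ≤ k) (hj : Jv j) : fwdDiff 1 (S (k + 1) j) = S k j := by
  funext n
  rw [fwdDiff, S_succ k j n hk hj]
  ring

lemma fwdDiff_iter_S (m j : ℕ) (hj : Jv j) : (fwdDiff 1)^[m] (S (m + 2) j) = R 2 j := by
  induction m with
  | zero =>
    funext n
    rw [Function.iterate_zero, id, R_two_eq]
    rfl
  | succ m ih =>
    rw [Function.iterate_succ_apply, show m + 1 + 2 = (m + 2) + 1 by ring,
      fwdDiff_S (m + 2) j (by omega) hj, ih]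

end Pool.Agent.H20.Esp
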