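import Pool.Agent.H20.Esp.Sums

/-!
# The last identity, for all `k`
-/

namespace Pool.Agent.H20.Esp

open Multiset

lemma zero_notMem_parts {n : ℕ} (l : Nat.Partition n) : 0 ∉ l.parts := fun h =>
  absurd (l.parts_pos h) (lt_irrefl 0)

/-- `∑ binom(m_1, j) m_p`. -/
def Fs (j p n : ℕ) : ℤ := ∑ l : Nat.Partition n, ((l.parts.count 1).choose j * l.parts.count p : ℤ)

/-- `∑ binom(m_1, j)`. -/
def Gs (j n : ℕ) : ℤ := ∑ l : Nat.Partition n, ((l.parts.count 1).choose j : ℤ)

lemma Fs_succ (j p n : ℕ) (hp : p ≠ 1) : Fs (j + 1) p (n + 1) = Fs (j + 1) p n + Fs j p n := by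
  unfold Fs
  have h := sum_addPart 1 n one_pos
    (fun s => ((s.count 1).choose (j + 1) * s.count p : ℤ)) (by
      intro s hs
      rw [Multiset.count_eq_zero.mpr hs]
      simp)
  rw [h, ← Finset.sum_add_distrib]
  apply Finset.sum_congr rfl
  intro l _
  rw [Multiset.count_cons_self, Multiset.count_cons_of_ne hp, Nat.choose_succ_succ]
  push_cast
  ring

lemma Gs_succ (j n : ℕ) : Gs (j + 1) (n + 1) = Gs (j + 1) n + Gs j n := by
  unfold Gs
  have h := sum_addPart 1 n one_pos
    (fun s => ((s.count 1).choose (j + 1) : ℤ)) (by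
      intro s hs
      rw [Multiset.count_eq_zero.mpr hs]
      simp)
  rw [h, ← Finset.sum_add_distrib]
  apply Finset.sum_congr rfl
  intro l _
  rw [Multiset.count_cons_self, Nat.choose_succ_succ]
  push_cast
  ring

lemma fwdDiff_Fs (j p : ℕ) (hp : p ≠ 1) : fwdDiff 1 (Fs (j + 1) p) = Fs j p := by
  funext n
  rw [fwdDiff, Fs_succ j p n hp]
  ring

lemma fwdDiff_Gs (j : ℕ) : fwdDiff 1 (Gs (j + 1)) = Gs j := by
  funext n
  rw [fwdDiff, Gs_succ j n]
  ring

lemma fwdDiff_iter_Fs (m j p : ℕ) (hp : p ≠ 1) : (fwdDiff 1)^[m] (Fs (j + m) p) = Fs j p := by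
  induction m with
  | zero => rfl
  | succ m ih => rw [Function.iterate_succ_apply, ← add_assoc, fwdDiff_Fs _ _ hp, ih]

lemma fwdDiff_iter_Gs (m j : ℕ) : (fwdDiff 1)^[m] (Gs (j + m)) = Gs j := by
  induction m with
  | zero => rfl
  | succ m ih => rw [Function.iterate_succ_apply, ← add_assoc, fwdDiff_Gs, ih]

lemma R_prime (k p n : ℕ) (hp : p.Prime) : R (k + 1) p n = Fs k p n := by
  rw [R_eq]
  · unfold Fs
    apply Finset.sum_congr rfl
    intro l _
    rw [count_prime _ _ _ hp (zero_notMem_parts l)]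
    push_cast
    ring
  · intro l m _ _ hne heq
    have hl : k ≤ l.parts.count 1 := by
      by_contra hlt
      push Not at hlt
      apply hne
      rw [count_prime _ _ _ hp (zero_notMem_parts l), Nat.choose_eq_zero_of_lt hlt, zero_mul]
    have hm : k ≤ m.parts.count 1 := by
      by_contra hlt
      push Not at hlt
      apply hne
      rw [heq, count_prime _ _ _ hp (zero_notMem_parts m), Nat.choose_eq_zero_of_lt hlt, zero_mul]
    exact Nat.Partition.ext (elemSym_injective k _ _ (zero_notMem_parts l) (zero_notMem_parts m)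
      hl hm heq)

lemma R_one (k n : ℕ) : R (k + 1) 1 n = Gs (k + 1) n := by
  rw [R_eq]
  · unfold Gs
    apply Finset.sum_congr rfl
    intro l _
    rw [count_one _ _ (zero_notMem_parts l)]
  · intro l m _ _ hne heq
    have hl : k ≤ l.parts.count 1 := by
      by_contra hlt
      push Not at hlt
      apply hne
      rw [count_one _ _ (zero_notMem_parts l), Nat.choose_eq_zero_of_lt (by omega)]
    have hm : k ≤ m.parts.count 1 := by
      by_contra hlt
      push Not at hlt
      apply hne
      rw [heq, count_one _ _ (zero_notMem_parts m), Nat.choose_eq_zero_of_lt (by omega)]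
    exact Nat.Partition.ext (elemSym_injective k _ _ (zero_notMem_parts l) (zero_notMem_parts m)
      hl hm heq)

/-- The last of the six identities. -/
theorem last_identity (k p n : ℕ) (hk : 1 ≤ k) (hp : p = 1 ∨ p.Prime) :
    (fwdDiff 1)^[k - 1] (R k p) n = N p n := by
  obtain ⟨j, rfl⟩ : ∃ j, k = j + 1 := ⟨k - 1, by omega⟩
  rw [Nat.add_sub_cancel, N_natCast]
  rcases hp with rfl | hp
  · have h : R (j + 1) 1 = Gs (1 + j) := by
      funext n
      rw [R_one, add_comm]
    rw [h, fwdDiff_iter_Gs]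
    simp only [Gs, Nn, Nat.choose_one_right]
  · have h : R (j + 1) p = Fs (0 + j) p := by
      funext n
      rw [R_prime _ _ _ hp, zero_add]
    rw [h, fwdDiff_iter_Fs _ _ _ hp.one_lt.ne']
    simp [Fs, Nn]

end Pool.Agent.H20.Esp
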