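import Pool.Agent.H20.Esp.Compl
import Pool.Agent.H20.Esp.Prime

/-!
# Elementary symmetric partitions: `E_k` is not injective for `k ≥ 3`
-/

namespace Pool.Agent.H20.Esp

open Multiset

/-- the first partition (before scaling): `4, 10, 10, 10, 32, 32` and `k - 3` copies of `1, 160` -/
def lam (m : ℕ) : Multiset ℕ :=
  {4, 10, 10, 10, 32, 32} + (Multiset.replicate m 1 + Multiset.replicate m 160)

/-- the second partition (before scaling): `40, 16, 16, 16, 5, 5` and `k - 3` copies of `160, 1` -/
def mu (m : ℕ) : Multiset ℕ :=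
  {40, 16, 16, 16, 5, 5} + (Multiset.replicate m 160 + Multiset.replicate m 1)

lemma lam_map (m : ℕ) : (lam m).map (fun x => 160 / x) = mu m := by
  simp only [lam, mu, Multiset.map_add, Multiset.map_replicate]
  rfl

lemma card_lam (m : ℕ) : card (lam m) = (m + 3) + (m + 3) := by
  simp only [lam, Multiset.card_add, Multiset.card_replicate]
  have : card ({4, 10, 10, 10, 32, 32} : Multiset ℕ) = 6 := rfl
  omega

lemma card_mu (m : ℕ) : card (mu m) = (m + 3) + (m + 3) := by
  rw [← lam_map, Multiset.card_map, card_lam]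

lemma sum_lam (m : ℕ) : (lam m).sum = 98 + 161 * m := by
  simp only [lam, Multiset.sum_add, Multiset.sum_replicate, smul_eq_mul]
  have : ({4, 10, 10, 10, 32, 32} : Multiset ℕ).sum = 98 := by decide
  omega

lemma sum_mu (m : ℕ) : (mu m).sum = 98 + 161 * m := by
  simp only [mu, Multiset.sum_add, Multiset.sum_replicate, smul_eq_mul]
  have : ({40, 16, 16, 16, 5, 5} : Multiset ℕ).sum = 98 := by decide
  omega

lemma prod_lam (m : ℕ) : (lam m).prod = 160 ^ (m + 3) := by
  simp only [lam, Multiset.prod_add, Multiset.prod_replicate, one_pow, one_mul]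
  have : ({4, 10, 10, 10, 32, 32} : Multiset ℕ).prod = 160 ^ 3 := by
    simp
  rw [this]; ring

lemma mem_lam {m x : ℕ} (h : x ∈ lam m) : x = 4 ∨ x = 10 ∨ x = 32 ∨ x = 1 ∨ x = 160 := by
  simp only [lam, Multiset.mem_add, Multiset.mem_replicate, Multiset.insert_eq_cons,
    Multiset.mem_cons, Multiset.mem_singleton] at h
  tauto

lemma mem_mu {m x : ℕ} (h : x ∈ mu m) : x = 40 ∨ x = 16 ∨ x = 5 ∨ x = 1 ∨ x = 160 := by
  simp only [mu, Multiset.mem_add, Multiset.mem_replicate, Multiset.insert_eq_cons,
    Multiset.mem_cons, Multiset.mem_singleton] at h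
  tauto

lemma elemSym_lam (m : ℕ) : elemSym (m + 3) (mu m) = elemSym (m + 3) (lam m) := by
  rw [← lam_map]
  refine elemSym_eq_of_compl 160 (m + 3) (by norm_num) _ (lam m) ?_ (card_lam m) (prod_lam m)
  intro x hx
  rcases mem_lam hx with h | h | h | h | h <;> subst h <;> norm_num

lemma count_four_lam (m : ℕ) : 1 ≤ (lam m).count 4 := by
  rw [Multiset.one_le_count_iff_mem]
  simp [lam]

lemma four_not_mem_mu (m : ℕ) : 4 ∉ mu m := by
  intro h
  rcases mem_mu h with h | h | h | h | h <;> omega

/-- scaling -/
lemma elemSym_map_mul (t k : ℕ) (s : Multiset ℕ) :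
    elemSym k (s.map (fun x => t * x)) = (elemSym k s).map (fun x => t ^ k * x) := by
  induction s using Multiset.induction_on generalizing k with
  | empty =>
    cases k with
    | zero => simp [elemSym_zero]
    | succ k => simp [elemSym_succ_nil]
  | cons a s ih =>
    cases k with
    | zero => simp [elemSym_zero]
    | succ k =>
      rw [Multiset.map_cons, elemSym_cons, elemSym_cons, Multiset.map_add, ih, ih,
        Multiset.map_map, Multiset.map_map]
      congr 1
      apply Multiset.map_congr rfl
      intro x _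
      simp only [Function.comp]
      ring

/-- the scaled partitions -/
def scaled (t n : ℕ) (ht : 1 ≤ t) (s : Multiset ℕ) (hs : 0 ∉ s) (hn : s.sum = n) :
    Nat.Partition (n * t) where
  parts := s.map (fun x => t * x)
  parts_pos := by
    intro i hi
    rw [Multiset.mem_map] at hi
    obtain ⟨x, hx, rfl⟩ := hi
    exact Nat.mul_pos ht (Nat.pos_of_ne_zero (fun h => hs (h ▸ hx)))
  parts_sum := by
    rw [Multiset.sum_map_mul_left, Multiset.map_id', hn, mul_comm]

theorem exists_collision (k t : ℕ) (hk : 3 ≤ k) (ht : 1 ≤ t) :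
    ∃ l m : Nat.Partition ((98 + 161 * (k - 3)) * t), l ≠ m ∧
      card l.parts = 2 * k ∧ card m.parts = 2 * k ∧
      elemSym k l.parts = elemSym k m.parts := by
  obtain ⟨r, rfl⟩ : ∃ r, k = r + 3 := ⟨k - 3, by omega⟩
  rw [Nat.add_sub_cancel]
  have h0 : 0 ∉ lam r := by
    intro h
    rcases mem_lam h with h | h | h | h | h <;> omega
  have h0' : 0 ∉ mu r := by
    intro h
    rcases mem_mu h with h | h | h | h | h <;> omega
  refine ⟨scaled t _ ht (lam r) h0 (sum_lam r), scaled t _ ht (mu r) h0' (sum_mu r), ?_, ?_, ?_, ?_⟩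
  · intro h
    have h1 : (lam r).map (fun x => t * x) = (mu r).map (fun x => t * x) := congrArg (·.parts) h
    have h2 : lam r = mu r :=
      Multiset.map_injective (fun x y hxy => Nat.eq_of_mul_eq_mul_left ht hxy) h1
    apply four_not_mem_mu r
    rw [← h2, ← Multiset.one_le_count_iff_mem]
    exact count_four_lam r
  · show card ((lam r).map (fun x => t * x)) = _
    rw [Multiset.card_map, card_lam]; omega
  · show card ((mu r).map (fun x => t * x)) = _
    rw [Multiset.card_map, card_mu]; omega
  · show elemSym (r + 3) ((lam r).map (fun x => t * x)) =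
      elemSym (r + 3) ((mu r).map (fun x => t * x))
    rw [elemSym_map_mul, elemSym_map_mul, elemSym_lam]

theorem injective_iff (k : ℕ) (hk : 1 ≤ k) :
    (∀ n : ℕ, Set.InjOn (fun l : Nat.Partition n => elemSym k l.parts)
      {l | k ≤ card l.parts}) ↔ k ≤ 2 := by
  constructor
  · intro h
    by_contra hk2
    obtain ⟨l, m, hlm, hl, hm, he⟩ := exists_collision k 1 (by omega) le_rfl
    exact hlm (h _ (by simp only [Set.mem_ofPred_eq]; omega)
      (by simp only [Set.mem_ofPred_eq]; omega) he)
  · intro hk2 n l hl m hm he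
    have hl0 := zero_notMem_parts l
    have hm0 := zero_notMem_parts m
    obtain rfl | rfl : k = 1 ∨ k = 2 := by omega
    · simp only [elemSym_one] at he
      exact Nat.Partition.ext he
    · exact Nat.Partition.ext (elemSym_two_injective l.parts m.parts hl0 hm0
        (by rw [l.parts_sum, m.parts_sum]) he)

end Pool.Agent.H20.Esp
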