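import Pool.Agent.H20.Esp.Low

/-!
# Two multisets with exactly `k - 2` ones
-/

namespace Pool.Agent.H20.Esp

open Multiset

/-- two smallest entries -/
lemma exists_two (u : Multiset ℕ) (h : 2 ≤ card u) :
    ∃ a b r, u = a ::ₘ b ::ₘ r ∧ a ≤ b ∧ ∀ x ∈ r, b ≤ x := by
  have hs := Multiset.sort_eq u (· ≤ ·)
  have hsorted := Multiset.pairwise_sort u (· ≤ ·)
  have hlen : (u.sort (· ≤ ·)).length = card u := Multiset.length_sort (· ≤ ·)
  match hl : u.sort (· ≤ ·), hlen, hsorted with
  | [], hlen, _ => simp at hlen; omega
  | [a], hlen, _ => simp at hlen; omega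
  | a :: b :: r, hlen, hsorted =>
    refine ⟨a, b, (r : Multiset ℕ), ?_, ?_, ?_⟩
    · rw [← hs, hl]
      rfl
    · rw [List.pairwise_cons] at hsorted
      exact hsorted.1 b (by simp)
    · intro x hx
      rw [List.pairwise_cons, List.pairwise_cons] at hsorted
      exact hsorted.2.1 x (by simpa using hx)

/-- three smallest entries -/
lemma exists_three (u : Multiset ℕ) (h : 3 ≤ card u) :
    ∃ a b d r, u = a ::ₘ b ::ₘ d ::ₘ r ∧ a ≤ b ∧ b ≤ d ∧ ∀ x ∈ r, d ≤ x := by
  obtain ⟨a, b, r, rfl, hab, hr⟩ := exists_two u (by omega)
  have hr0 : 1 ≤ card r := by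
    rw [Multiset.card_cons, Multiset.card_cons] at h
    omega
  obtain ⟨d, hd⟩ : ∃ d, d ∈ r := Multiset.card_pos_iff_exists_mem.mp hr0
  classical
  have hex : ∃ d, d ∈ r := ⟨d, hd⟩
  let m := Nat.find hex
  have hm : m ∈ r := Nat.find_spec hex
  obtain ⟨r', hr'⟩ := Multiset.exists_cons_of_mem hm
  refine ⟨a, b, m, r', by rw [← hr'], hab, hr m hm, ?_⟩
  intro x hx
  exact Nat.find_min' hex (by rw [hr']; exact Multiset.mem_cons_of_mem hx)

/-- any product of `c + 2` entries is at least the product of the two smallest entries `≠ 1` -/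
lemma min_prod {c a b : ℕ} {r s : Multiset ℕ} (hs : 0 ∉ s) (hc : s.count 1 = c)
    (hu : nonOne s = a ::ₘ b ::ₘ r) (hab : a ≤ b) (hr : ∀ x ∈ r, b ≤ x) {e : ℕ}
    (he : e ∈ elemSym (c + 2) s) : a * b ≤ e := by
  obtain ⟨t, hts, hcard, hprod⟩ := mem_elemSym.mp he
  have h1 := card_nonOne t
  have h2 : t.count 1 ≤ s.count 1 := Multiset.count_le_of_le 1 hts
  obtain ⟨x, y, v, hv, hxy, hv2⟩ := exists_two (nonOne t) (by omega)
  have ht0 : 0 ∉ t := fun h' => hs (Multiset.mem_of_le hts h')
  have hle : x ::ₘ y ::ₘ v ≤ a ::ₘ b ::ₘ r := by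
    rw [← hv, ← hu]
    exact nonOne_le hts
  have hmin : ∀ z ∈ a ::ₘ b ::ₘ r, a ≤ z := by
    intro z hz
    rcases Multiset.mem_cons.mp hz with h | h
    · exact h ▸ le_rfl
    · rcases Multiset.mem_cons.mp h with h | h
      · exact h ▸ hab
      · exact le_trans hab (hr z h)
  have hax : a ≤ x := hmin x (Multiset.mem_of_le hle (by simp))
  have hby : b ≤ y := by
    by_cases hxa : x = a
    · rw [hxa, Multiset.cons_le_cons_iff] at hle
      have hy : y ∈ b ::ₘ r := Multiset.mem_of_le hle (by simp)
      rcases Multiset.mem_cons.mp hy with h | h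
      · exact h ▸ le_rfl
      · exact hr y h
    · have hx : x ∈ a ::ₘ b ::ₘ r := Multiset.mem_of_le hle (by simp)
      rcases Multiset.mem_cons.mp hx with h | h
      · exact absurd h hxa
      · have hbx : b ≤ x := by
          rcases Multiset.mem_cons.mp h with h | h
          · exact h ▸ le_rfl
          · exact hr x h
        exact le_trans hbx hxy
  have hv1 : 1 ≤ v.prod := le_trans Nat.one_le_two_pow
    (pow_le_prod v (fun z hz => two_le_of_mem_nonOne ht0 (by rw [hv]; simp [hz])))
  have hprod' : e = x * (y * v.prod) := by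
    rw [← hprod, ← prod_nonOne, hv, Multiset.prod_cons, Multiset.prod_cons]
  rw [hprod']
  exact Nat.mul_le_mul hax (le_trans hby (Nat.le_mul_of_pos_right y hv1))

/-- multiplicities when an entry is split off -/
lemma count_le_cons (k a d : ℕ) (ha : 0 < a) (s : Multiset ℕ) :
    (elemSym k s).count d ≤ (elemSym (k + 1) (a ::ₘ s)).count (a * d) := by
  rw [count_cons k a d ha]
  omega

lemma elemSym_ones (s : Multiset ℕ) (hs : 0 ∉ s) : (elemSym (s.count 1) s).count 1 = 1 := by
  rw [count_one s _ hs, Nat.choose_self]

lemma eq_of_nonOne {s : Multiset ℕ} {u : Multiset ℕ} (hu : nonOne s = u) :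
    s = u + Multiset.replicate (s.count 1) 1 := by
  rw [← hu, add_comm, ones_add_nonOne]

/-- the product of the two smallest entries `≠ 1` occurs -/
lemma min_prod_mem {c a b : ℕ} {r s : Multiset ℕ} (hc : s.count 1 = c)
    (hu : nonOne s = a ::ₘ b ::ₘ r) : a * b ∈ elemSym (c + 2) s := by
  rw [mem_elemSym]
  refine ⟨a ::ₘ b ::ₘ Multiset.replicate c 1, ?_, by simp, by simp⟩
  rw [eq_of_nonOne hu, hc, Multiset.cons_add, Multiset.cons_add]
  apply Multiset.cons_le_cons
  apply Multiset.cons_le_cons
  exact Multiset.le_add_left _ _

/-- entries greater than `q` do not matter for the products `a q` -/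
lemma count_filter' (a q : ℕ) (ha : 0 < a) (hq : 0 < q) (k : ℕ) (s : Multiset ℕ) (hs : 0 ∉ s)
    (hall : ∀ y ∈ s, y ≠ 1 → a ≤ y) (hk : s.count 1 < k) :
    (elemSym (k + 1) s).count (a * q) =
      (elemSym (k + 1) (s.filter (fun x => x ≤ q))).count (a * q) := by
  induction s using Multiset.induction_on generalizing k with
  | empty => simp
  | cons x s ih =>
    have hs' : 0 ∉ s := fun h => hs (Multiset.mem_cons_of_mem h)
    have hx : 0 < x := Nat.pos_of_ne_zero (fun h => hs (by simp [h]))
    have hall' : ∀ y ∈ s, y ≠ 1 → a ≤ y := fun y hy => hall y (Multiset.mem_cons_of_mem hy)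
    have hk' : s.count 1 < k := lt_of_le_of_lt (Multiset.count_le_count_cons 1 x s) hk
    have ih' := ih k hs' hall' hk'
    by_cases hxq : x ≤ q
    · rw [Multiset.filter_cons_of_pos (p := fun x => x ≤ q) s hxq]
      by_cases hx1 : x = 1
      · subst hx1
        obtain ⟨k', rfl⟩ : ∃ k', k = k' + 1 := ⟨k - 1, by omega⟩
        have h1 := count_cons (k' + 1) 1 (a * q) one_pos s
        have h2 := count_cons (k' + 1) 1 (a * q) one_pos (s.filter (fun x => x ≤ q))
        rw [one_mul] at h1 h2
        rw [h1, h2, ih', ih k' hs' hall' (by rw [Multiset.count_cons_self] at hk; omega)]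
      · by_cases hdvd : x ∣ a * q
        · obtain ⟨e, he⟩ := hdvd
          have hax : a ≤ x := hall x (Multiset.mem_cons_self x s) hx1
          have heq : e ≤ q := by
            by_contra hcon
            push Not at hcon
            have : a * q < x * e := Nat.mul_lt_mul_of_le_of_lt hax hcon hx
            omega
          have he0 : 0 < e := by
            apply Nat.pos_of_ne_zero
            rintro rfl
            rw [mul_zero] at he
            have := Nat.mul_pos ha hq
            omega
          rw [he, count_cons k x e hx, count_cons k x e hx, ← he, ih',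
            count_filter s k e q he0 heq hs']
        · rw [count_cons_of_not_dvd _ _ _ hdvd, count_cons_of_not_dvd _ _ _ hdvd, ih']
    · rw [Multiset.filter_cons_of_neg (p := fun x => x ≤ q) s hxq, ← ih']
      push Not at hxq
      rw [elemSym_cons, Multiset.count_add]
      have h0 : ((elemSym k s).map (fun z => x * z)).count (a * q) = 0 := by
        rw [Multiset.count_eq_zero, Multiset.mem_map]
        rintro ⟨e, he, heq⟩
        have h1 := le_of_few_ones hs' hall' hk' he
        have : q * a < x * e := Nat.mul_lt_mul_of_lt_of_le hxq h1 (lt_of_lt_of_le ha h1)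
        rw [mul_comm] at this
        omega
      rw [h0, add_zero]

/-- adding copies of `q > a` -/
lemma count_replicate' (a q : ℕ) (ha : 0 < a) (haq : a < q) (k m : ℕ) (u : Multiset ℕ)
    (hu : 0 ∉ u) :
    (elemSym (k + 1) (Multiset.replicate m q + u)).count (a * q) =
      (elemSym (k + 1) u).count (a * q) + m * (elemSym k u).count a := by
  induction m with
  | zero => simp
  | succ m ih =>
    have h0 : 0 ∉ Multiset.replicate m q + u := by
      rw [Multiset.mem_add, not_or]
      refine ⟨fun h => ?_, hu⟩
      have := Multiset.eq_of_mem_replicate h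
      omega
    have h1 := count_cons k q a (by omega) (Multiset.replicate m q + u)
    rw [mul_comm] at h1
    have h2 : (elemSym k (Multiset.replicate m q + u)).count a = (elemSym k u).count a := by
      rw [count_filter _ k a a ha le_rfl h0, count_filter u k a a ha le_rfl hu,
        Multiset.filter_add]
      have : (Multiset.replicate m q).filter (fun x => x ≤ a) = 0 := by
        rw [Multiset.filter_eq_nil]
        intro x hx
        have := Multiset.eq_of_mem_replicate hx
        omega
      rw [this, zero_add]
    rw [Multiset.replicate_succ, Multiset.cons_add, h1, ih, h2]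
    ring

/-- the number of pairs -/
lemma count_sq (a c : ℕ) (ha : 2 ≤ a) (m : ℕ) :
    (elemSym (c + 2) (Multiset.replicate m a + Multiset.replicate c 1)).count (a * a) =
      m.choose 2 := by
  induction m with
  | zero =>
    rw [Multiset.replicate_zero, zero_add, Multiset.count_eq_zero.mpr]
    · rfl
    · intro h
      obtain ⟨t, ht, hcard, -⟩ := mem_elemSym.mp h
      have := Multiset.card_le_card ht
      rw [hcard, Multiset.card_replicate] at this
      omega
  | succ m ih =>
    have h0 : 0 ∉ Multiset.replicate m a + Multiset.replicate c 1 := by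
      rw [Multiset.mem_add, not_or]
      constructor
      · intro h
        have := Multiset.eq_of_mem_replicate h
        omega
      · intro h
        have := Multiset.eq_of_mem_replicate h
        omega
    have hc1 : (Multiset.replicate m a + Multiset.replicate c 1).count 1 = c := by
      rw [Multiset.count_add, Multiset.count_replicate_self, Multiset.count_replicate,
        if_neg (by omega), zero_add]
    rw [Multiset.replicate_succ, Multiset.cons_add, count_cons (c + 1) a a (by omega), ih,
      Nat.choose_succ_succ]
    have h1 : (elemSym (c + 1) (Multiset.replicate m a + Multiset.replicate c 1)).count a =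
        m * c.choose c := by
      have h2 := count_replicate (Multiset.replicate c 1) m c a (by omega) (by
        intro h
        have := Multiset.eq_of_mem_replicate h
        omega)
      rw [h2, Multiset.count_replicate_self, Multiset.count_eq_zero.mpr, zero_add]
      intro h
      obtain ⟨t, ht, hcard, -⟩ := mem_elemSym.mp h
      have := Multiset.card_le_card ht
      rw [hcard, Multiset.card_replicate] at this
      omega
    rw [h1, Nat.choose_self, mul_one, Nat.choose_one_right]
    ring

/-- `E_{c+2}` is injective on the multisets with exactly `c` ones for which one of `4, 6, 9, 10`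
occurs -/
theorem same_type (c j : ℕ) (s t : Multiset ℕ) (hs : 0 ∉ s) (ht : 0 ∉ t)
    (hcs : s.count 1 = c) (hct : t.count 1 = c) (hj : Jv j) (hjs : j ∈ elemSym (c + 2) s)
    (h : elemSym (c + 2) s = elemSym (c + 2) t) : s = t := by
  classical
  have hcard : ∀ r : Multiset ℕ, r.count 1 = c → j ∈ elemSym (c + 2) r → 2 ≤ card (nonOne r) := by
    intro r hr hjr
    obtain ⟨v, hv, hcv, -⟩ := mem_elemSym.mp hjr
    have h1 := Multiset.card_le_card hv
    have h2 := card_nonOne r
    omega
  have hjt : j ∈ elemSym (c + 2) t := h ▸ hjs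
  obtain ⟨a, a', u, hu, haa, hua⟩ := exists_two (nonOne s) (hcard s hcs hjs)
  obtain ⟨b, b', v, hv, hbb, hvb⟩ := exists_two (nonOne t) (hcard t hct hjt)
  have ha2 : 2 ≤ a := two_le_of_mem_nonOne hs (by rw [hu]; simp)
  have hb2 : 2 ≤ b := two_le_of_mem_nonOne ht (by rw [hv]; simp)
  have hj10 : j ≤ 10 := by rcases hj with h | h | h | h <;> omega
  have hab : a * a' = b * b' := by
    apply le_antisymm
    · exact min_prod hs hcs hu haa hua (h ▸ min_prod_mem hct hv)
    · exact min_prod ht hct hv hbb hvb (h ▸ min_prod_mem hcs hu)
  have haj : a * a' ≤ 10 := le_trans (min_prod hs hcs hu haa hua hjs) hj10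
  have hbj : b * b' ≤ 10 := hab ▸ haj
  have ha5 : a' ≤ 5 := by nlinarith
  have hb5 : b' ≤ 5 := by nlinarith
  have ha3 : a ≤ 3 := by nlinarith
  have hb3 : b ≤ 3 := by nlinarith
  have heq : a = b := by
    interval_cases a <;> interval_cases b <;> first | rfl | (exfalso; omega)
  subst heq
  have hsa : ∀ y ∈ s, y ≠ 1 → a ≤ y := by
    intro y hy hy1
    have : y ∈ nonOne s := mem_nonOne.mpr ⟨hy, hy1⟩
    rw [hu] at this
    rcases Multiset.mem_cons.mp this with h | h
    · exact h ▸ le_rfl
    · rcases Multiset.mem_cons.mp h with h | h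
      · exact h ▸ haa
      · exact le_trans haa (hua y h)
  have hta : ∀ y ∈ t, y ≠ 1 → a ≤ y := by
    intro y hy hy1
    have : y ∈ nonOne t := mem_nonOne.mpr ⟨hy, hy1⟩
    rw [hv] at this
    rcases Multiset.mem_cons.mp this with h | h
    · exact h ▸ le_rfl
    · rcases Multiset.mem_cons.mp h with h | h
      · exact h ▸ hbb
      · exact le_trans hbb (hvb y h)
  have hsc : 1 ≤ s.count a := Multiset.one_le_count_iff_mem.mpr
    ((mem_nonOne.mp (show a ∈ nonOne s by rw [hu]; simp)).1)
  have htc : 1 ≤ t.count a := Multiset.one_le_count_iff_mem.mpr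
    ((mem_nonOne.mp (show a ∈ nonOne t by rw [hv]; simp)).1)
  by_contra hne
  have hex : ∃ q, s.count q ≠ t.count q := by
    by_contra hcon
    push Not at hcon
    exact hne (Multiset.ext.mpr hcon)
  let q := Nat.find hex
  have hq : s.count q ≠ t.count q := Nat.find_spec hex
  have hmin : ∀ d < q, s.count d = t.count d := by
    intro d hd
    by_contra hcon
    exact Nat.find_min hex hd hcon
  have hq0 : q ≠ 0 := by
    intro h0
    rw [h0, Multiset.count_eq_zero.mpr hs, Multiset.count_eq_zero.mpr ht] at hq
    exact hq rfl
  have hq1 : q ≠ 1 := by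
    intro h1
    rw [h1] at hq
    exact hq (hcs.trans hct.symm)
  have hqa : a ≤ q := by
    by_contra hcon
    have h1 : ∀ r : Multiset ℕ, (∀ y ∈ r, y ≠ 1 → a ≤ y) → r.count q = 0 := by
      intro r hr
      rw [Multiset.count_eq_zero]
      intro hmem
      exact hcon (hr q hmem hq1)
    exact hq ((h1 s hsa).trans (h1 t hta).symm)
  rcases Nat.eq_or_lt_of_le hqa with hqa | hqa
  · -- `q = a`
    have key : ∀ r : Multiset ℕ, 0 ∉ r → r.count 1 = c → (∀ y ∈ r, y ≠ 1 → a ≤ y) →
        (elemSym (c + 2) r).count (a * a) = (r.count a).choose 2 := by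
      intro r hr hc hra
      rw [count_filter' a a (by omega) (by omega) (c + 1) r hr hra (by omega)]
      have : r.filter (fun x => x ≤ a) =
          Multiset.replicate (r.count a) a + Multiset.replicate c 1 := by
        ext d
        rw [Multiset.count_filter, Multiset.count_add, Multiset.count_replicate,
          Multiset.count_replicate]
        by_cases hd1 : d = 1
        · subst hd1
          rw [if_pos (by omega), if_neg (by omega), if_pos rfl, hc, zero_add]
        · by_cases hda : d = a
          · subst hda
            rw [if_pos le_rfl, if_pos rfl, if_neg (by omega), add_zero]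
          · rw [if_neg (Ne.symm hda), if_neg (Ne.symm hd1), add_zero]
            by_cases hle : d ≤ a
            · rw [if_pos hle, Multiset.count_eq_zero]
              intro hmem
              have := hra d hmem hd1
              omega
            · rw [if_neg hle]
      rw [this, count_sq a c ha2]
    have h1 := key s hs hcs hsa
    have h2 := key t ht hct hta
    rw [h, h2] at h1
    rw [← hqa] at hq
    have hmono : ∀ x y : ℕ, 1 ≤ x → x < y → x.choose 2 < y.choose 2 := by
      intro x y hx hxy
      have h3 : (x + 1).choose 2 ≤ y.choose 2 := Nat.choose_le_choose 2 hxy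
      have h4 : (x + 1).choose 2 = x + x.choose 2 := by
        rw [Nat.choose_succ_succ' x 1, Nat.choose_one_right]
      omega
    rcases lt_or_gt_of_ne hq with hlt | hgt
    · have := hmono _ _ hsc hlt
      omega
    · have := hmono _ _ htc hgt
      omega
  · -- `q > a`
    have hfilt : s.filter (fun x => x < q) = t.filter (fun x => x < q) := by
      ext d
      rw [Multiset.count_filter, Multiset.count_filter]
      by_cases hd : d < q
      · rw [if_pos hd, if_pos hd, hmin d hd]
      · rw [if_neg hd, if_neg hd]
    have key : ∀ r : Multiset ℕ, 0 ∉ r → r.count 1 = c → (∀ y ∈ r, y ≠ 1 → a ≤ y) →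
        (elemSym (c + 2) r).count (a * q) =
          (elemSym (c + 2) (r.filter (fun x => x < q))).count (a * q) +
            r.count q * (elemSym (c + 1) (r.filter (fun x => x < q))).count a := by
      intro r hr hc hra
      have hr' : 0 ∉ r.filter (fun x => x < q) := fun h => hr (Multiset.mem_of_mem_filter h)
      rw [count_filter' a q (by omega) (by omega) (c + 1) r hr hra (by omega), filter_le_eq,
        count_replicate' a q (by omega) hqa (c + 1) _ _ hr']
    have h1 := key s hs hcs hsa
    have h2 := key t ht hct hta
    rw [h, h2, hfilt] at h1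
    have hpos : 0 < (elemSym (c + 1) (t.filter (fun x => x < q))).count a := by
      rw [Multiset.count_pos, mem_elemSym]
      refine ⟨a ::ₘ Multiset.replicate c 1, ?_, by simp, by simp⟩
      rw [Multiset.le_iff_count]
      intro d
      rw [Multiset.count_filter]
      by_cases hda : d = a
      · subst hda
        rw [Multiset.count_cons_self, Multiset.count_replicate, if_neg (by omega), if_pos hqa]
        omega
      · rw [Multiset.count_cons_of_ne hda, Multiset.count_replicate]
        by_cases hd1 : 1 = d
        · subst hd1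
          rw [if_pos rfl, if_pos (by omega)]
          omega
        · rw [if_neg hd1]
          exact Nat.zero_le _
    have : s.count q * (elemSym (c + 1) (t.filter (fun x => x < q))).count a =
        t.count q * (elemSym (c + 1) (t.filter (fun x => x < q))).count a := by omega
    exact hq (Nat.eq_of_mul_eq_mul_right hpos this)

end Pool.Agent.H20.Esp
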