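import Pool.Agent.H20.Esp.Basic

/-!
# Sums over partitions
-/

namespace Pool.Agent.H20.Esp

open Multiset

/-- Add a part `a` to a partition. -/
def addPart {n : ℕ} (a : ℕ) (ha : 0 < a) (l : Nat.Partition n) : Nat.Partition (n + a) where
  parts := a ::ₘ l.parts
  parts_pos := by
    intro i hi
    rcases Multiset.mem_cons.mp hi with h | h
    · exact h ▸ ha
    · exact l.parts_pos h
  parts_sum := by
    rw [Multiset.sum_cons, l.parts_sum, add_comm]

lemma addPart_injective {n : ℕ} (a : ℕ) (ha : 0 < a) :
    Function.Injective (addPart (n := n) a ha) := by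
  intro l m h
  have : a ::ₘ l.parts = a ::ₘ m.parts := congrArg Nat.Partition.parts h
  exact Nat.Partition.ext ((Multiset.cons_inj_right a).mp this)

lemma exists_addPart {n : ℕ} (a : ℕ) (ha : 0 < a) (l : Nat.Partition (n + a))
    (h : a ∈ l.parts) : ∃ m : Nat.Partition n, addPart a ha m = l := by
  obtain ⟨t, ht⟩ := Multiset.exists_cons_of_mem h
  refine ⟨⟨t, ?_, ?_⟩, ?_⟩
  · intro i hi
    exact l.parts_pos (by rw [ht]; exact Multiset.mem_cons_of_mem hi)
  · have := l.parts_sum
    rw [ht, Multiset.sum_cons] at this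
    omega
  · apply Nat.Partition.ext
    exact ht.symm

/-- A sum over the partitions of `n + a` of a quantity vanishing when there is no part `a`. -/
lemma sum_addPart (a n : ℕ) (ha : 0 < a) (F : Multiset ℕ → ℤ) (hF : ∀ s, a ∉ s → F s = 0) :
    ∑ l : Nat.Partition (n + a), F l.parts = ∑ l : Nat.Partition n, F (a ::ₘ l.parts) := by
  symm
  refine Finset.sum_of_injOn (addPart a ha) ?_ ?_ ?_ ?_
  · exact (addPart_injective a ha).injOn
  · intro l _
    exact Finset.mem_coe.mpr (Finset.mem_univ _)
  · intro l _ hl
    apply hF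
    intro hmem
    obtain ⟨m, hm⟩ := exists_addPart a ha l hmem
    exact hl ⟨m, Finset.mem_coe.mpr (Finset.mem_univ _), hm⟩
  · intro l _
    rfl

/-- A sum over small partitions of a quantity vanishing when there is no part `a`. -/
lemma sum_eq_zero_of_lt (a n : ℕ) (hn : n < a) (F : Multiset ℕ → ℤ)
    (hF : ∀ s, a ∉ s → F s = 0) : ∑ l : Nat.Partition n, F l.parts = 0 := by
  apply Finset.sum_eq_zero
  intro l _
  apply hF
  intro h
  have := Nat.Partition.le_of_mem_parts h
  omega

/-- The number of parts `j` in all the partitions of a natural number. -/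
def Nn (j n : ℕ) : ℤ := ∑ l : Nat.Partition n, (l.parts.count j : ℤ)

lemma N_natCast (j n : ℕ) : N j (n : ℤ) = Nn j n := by
  unfold N Nn
  rw [if_neg (by omega)]
  simp

/-- `R` as a sum over partitions, when `E_k` is injective where it matters. -/
lemma R_eq (k j n : ℕ) (hinj : ∀ l m : Nat.Partition n, k ≤ card l.parts → k ≤ card m.parts →
    (elemSym k l.parts).count j ≠ 0 → elemSym k l.parts = elemSym k m.parts → l = m) :
    R k j n = ∑ l : Nat.Partition n, ((elemSym k l.parts).count j : ℤ) := by
  classical
  unfold R imageSet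
  set S := (Finset.univ : Finset (Nat.Partition n)).filter (fun l => k ≤ card l.parts) with hS
  set T := S.filter (fun l => (elemSym k l.parts).count j ≠ 0) with hT
  have h1 : ∑ l : Nat.Partition n, ((elemSym k l.parts).count j : ℤ) =
      ∑ l ∈ T, ((elemSym k l.parts).count j : ℤ) := by
    symm
    apply Finset.sum_subset (Finset.subset_univ _)
    intro l _ hl
    by_contra hcon
    apply hl
    rw [hT, Finset.mem_filter, hS, Finset.mem_filter]
    have hne : (elemSym k l.parts).count j ≠ 0 := by
      intro h
      exact hcon (by rw [h]; rfl)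
    refine ⟨⟨Finset.mem_univ _, ?_⟩, hne⟩
    by_contra hlt
    push Not at hlt
    apply hne
    have : elemSym k l.parts = 0 := by
      rw [← Multiset.card_eq_zero, card_elemSym, Nat.choose_eq_zero_of_lt hlt]
    rw [this, Multiset.count_zero]
  have h2 : ∑ m ∈ S.image (fun l => elemSym k l.parts), (m.count j : ℤ) =
      ∑ m ∈ T.image (fun l => elemSym k l.parts), (m.count j : ℤ) := by
    symm
    apply Finset.sum_subset (Finset.image_subset_image (Finset.filter_subset _ _))
    intro m hm hm'
    obtain ⟨l, hl, rfl⟩ := Finset.mem_image.mp hm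
    by_contra hcon
    apply hm'
    refine Finset.mem_image.mpr ⟨l, ?_, rfl⟩
    rw [Finset.mem_filter]
    refine ⟨hl, fun h => hcon (by rw [h]; rfl)⟩
  rw [h1, h2, Finset.sum_image]
  intro l hl m hm hlm
  have hl' := (Finset.mem_filter.mp hl)
  have hm' := (Finset.mem_filter.mp hm)
  exact hinj l m (Finset.mem_filter.mp hl'.1).2 (Finset.mem_filter.mp hm'.1).2 hl'.2 hlm

end Pool.Agent.H20.Esp
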