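import Pool.Agent.H20.Esp.Sums

/-!
# The case `k = 2`
-/

namespace Pool.Agent.H20.Esp

open Multiset

lemma elemSym_one (s : Multiset ℕ) : elemSym 1 s = s := by
  simp [elemSym, Multiset.powersetCard_one]

/-- power sums -/
def psum (s : Multiset ℕ) (r : ℕ) : ℕ := (s.map (fun x => x ^ r)).sum

lemma psum_zero (r : ℕ) : psum 0 r = 0 := by simp [psum]

lemma psum_cons (a : ℕ) (s : Multiset ℕ) (r : ℕ) : psum (a ::ₘ s) r = a ^ r + psum s r := by
  simp [psum]

lemma psum_add (s t : Multiset ℕ) (r : ℕ) : psum (s + t) r = psum s r + psum t r := by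
  simp [psum]

lemma psum_map_mul (a : ℕ) (s : Multiset ℕ) (r : ℕ) :
    psum (s.map (fun x => a * x)) r = a ^ r * psum s r := by
  induction s using Multiset.induction_on with
  | empty => simp [psum]
  | cons b s ih =>
    rw [Multiset.map_cons, psum_cons, psum_cons, ih, mul_pow]
    ring

lemma psum_sq (s : Multiset ℕ) (r : ℕ) :
    psum s r ^ 2 = psum s (2 * r) + 2 * psum (elemSym 2 s) r := by
  induction s using Multiset.induction_on with
  | empty => simp [psum_zero, elemSym_succ_nil]
  | cons a s ih =>
    rw [psum_cons, elemSym_cons, psum_add, psum_map_mul, elemSym_one, psum_cons, add_pow_two, ih,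
      pow_mul' a 2 r]
    ring

lemma pow_ineq (m n : ℕ) : (m + n) * m ^ n ≤ m * (m + 1) ^ n := by
  induction n with
  | zero => simp
  | succ n ih =>
    calc (m + (n + 1)) * m ^ (n + 1) = ((m + n + 1) * m) * m ^ n := by ring
      _ ≤ ((m + 1) * (m + n)) * m ^ n := by
          apply Nat.mul_le_mul_right
          nlinarith
      _ = (m + 1) * ((m + n) * m ^ n) := by ring
      _ ≤ (m + 1) * (m * (m + 1) ^ n) := Nat.mul_le_mul_left _ ih
      _ = m * (m + 1) ^ (n + 1) := by ring

lemma psum_le (t : Multiset ℕ) (m r : ℕ) (h : ∀ x ∈ t, x ≤ m) : psum t r ≤ card t * m ^ r := by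
  unfold psum
  calc (t.map (fun x => x ^ r)).sum ≤ card (t.map (fun x => x ^ r)) • m ^ r := by
        apply Multiset.sum_le_card_nsmul
        intro x hx
        obtain ⟨y, hy, rfl⟩ := Multiset.mem_map.mp hx
        exact Nat.pow_le_pow_left (h y hy) r
    _ = card t * m ^ r := by simp

lemma le_psum (s : Multiset ℕ) (M r : ℕ) (h : M ∈ s) : M ^ r ≤ psum s r := by
  obtain ⟨t, rfl⟩ := Multiset.exists_cons_of_mem h
  rw [psum_cons]
  omega

lemma no_max (s t : Multiset ℕ) (M : ℕ) (hM : M ∈ s) (hM0 : 0 < M) (ht : ∀ x ∈ t, x < M)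
    (ht0 : 0 ∉ t) (h : ∀ i, psum s (2 ^ i) = psum t (2 ^ i)) : False := by
  rcases Nat.lt_or_ge M 2 with h2 | h2
  · have ht' : t = 0 := by
      apply Multiset.eq_zero_of_forall_notMem
      intro x hx
      have := ht x hx
      have hx0 : x ≠ 0 := fun h => ht0 (h ▸ hx)
      omega
    have h1 := le_psum s M (2 ^ 0) hM
    rw [h 0, ht', psum_zero] at h1
    have := pow_pos hM0 (2 ^ 0)
    omega
  · obtain ⟨m, rfl⟩ : ∃ m, M = m + 1 := ⟨M - 1, by omega⟩
    have hm : 1 ≤ m := by omega
    set C := card t with hC
    set N := 2 ^ (m * C) with hN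
    have h1 : (m + 1) ^ N ≤ C * m ^ N := by
      calc (m + 1) ^ N ≤ psum s N := le_psum s _ _ hM
        _ = psum t N := h _
        _ ≤ C * m ^ N := psum_le t m N (fun x hx => Nat.lt_succ_iff.mp (ht x hx))
    have h2 : (m + N) * m ^ N ≤ (m * C) * m ^ N := by
      calc (m + N) * m ^ N ≤ m * (m + 1) ^ N := pow_ineq m N
        _ ≤ m * (C * m ^ N) := Nat.mul_le_mul_left _ h1
        _ = (m * C) * m ^ N := by ring
    have h3 : m + N ≤ m * C := Nat.le_of_mul_le_mul_right h2 (pow_pos hm N)
    have h4 : m * C < N := Nat.lt_two_pow_self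
    omega

/-- Multisets of positive integers are determined by their power sums of orders `2 ^ i`. -/
lemma eq_of_psum (s t : Multiset ℕ) (hs : 0 ∉ s) (ht : 0 ∉ t)
    (h : ∀ i, psum s (2 ^ i) = psum t (2 ^ i)) : s = t := by
  by_contra hne
  -- the largest entry whose multiplicities differ
  have hbd : ∀ c, s.count c ≠ t.count c → c ≤ s.sum + t.sum := by
    intro c hc
    by_cases h1 : c ∈ s
    · have := Multiset.le_sum_of_mem h1
      omega
    · by_cases h2 : c ∈ t
      · have := Multiset.le_sum_of_mem h2
        omega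
      · rw [Multiset.count_eq_zero.mpr h1, Multiset.count_eq_zero.mpr h2] at hc
        exact absurd rfl hc
  have hex : ∃ c, s.count c ≠ t.count c := by
    by_contra hcon
    push Not at hcon
    exact hne (Multiset.ext.mpr hcon)
  classical
  obtain ⟨c0, hc0⟩ := hex
  let M := Nat.findGreatest (fun c => s.count c ≠ t.count c) (s.sum + t.sum)
  have hM : s.count M ≠ t.count M := Nat.findGreatest_spec (P := fun c => s.count c ≠ t.count c)
    (hbd c0 hc0) hc0
  have hmax : ∀ d, M < d → s.count d = t.count d := by
    intro d hd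
    by_contra hcon
    exact absurd (Nat.le_findGreatest (P := fun c => s.count c ≠ t.count c) (hbd d hcon) hcon)
      (by omega)
  have hM0 : 0 < M := by
    rcases Nat.eq_zero_or_pos M with h0 | h0
    · rw [h0, Multiset.count_eq_zero.mpr hs, Multiset.count_eq_zero.mpr ht] at hM
      exact absurd rfl hM
    · exact h0
  have hps : ∀ i, psum (s - t) (2 ^ i) = psum (t - s) (2 ^ i) := by
    intro i
    have e1 : s - t + t ∩ s = s := by
      ext d
      rw [Multiset.count_add, Multiset.count_sub, Multiset.count_inter]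
      omega
    have e2 : t - s + t ∩ s = t := by
      ext d
      rw [Multiset.count_add, Multiset.count_sub, Multiset.count_inter]
      omega
    have h1 := psum_add (s - t) (t ∩ s) (2 ^ i)
    have h2 := psum_add (t - s) (t ∩ s) (2 ^ i)
    rw [e1] at h1
    rw [e2] at h2
    have := h i
    omega
  have hst : ∀ u v : Multiset ℕ, 0 ∉ v → v.count M < u.count M →
      (∀ d, M < d → u.count d = v.count d) →
      (∀ i, psum (u - v) (2 ^ i) = psum (v - u) (2 ^ i)) → False := by
    intro u v hv hlt hgt hp
    apply no_max (u - v) (v - u) M _ hM0 _ _ hp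
    · rw [← Multiset.count_pos, Multiset.count_sub]
      omega
    · intro x hx
      rw [← Multiset.count_pos, Multiset.count_sub] at hx
      by_contra hcon
      push Not at hcon
      rcases Nat.eq_or_lt_of_le hcon with h1 | h1
      · rw [← h1] at hx
        omega
      · have := hgt x h1
        omega
    · intro h0
      rw [← Multiset.count_pos, Multiset.count_sub, Multiset.count_eq_zero.mpr hv] at h0
      omega
  rcases Nat.lt_or_gt_of_ne hM with h1 | h1
  · exact hst t s hs h1 (fun d hd => (hmax d hd).symm) (fun i => (hps i).symm)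
  · exact hst s t ht h1 hmax hps

/-- `E_2` is injective on the partitions of `n` with at least two parts. -/
theorem elemSym_two_injective (s t : Multiset ℕ) (hs : 0 ∉ s) (ht : 0 ∉ t) (hsum : s.sum = t.sum)
    (h : elemSym 2 s = elemSym 2 t) : s = t := by
  apply eq_of_psum s t hs ht
  intro i
  induction i with
  | zero => simpa [psum] using hsum
  | succ i ih =>
    have h1 := psum_sq s (2 ^ i)
    have h2 := psum_sq t (2 ^ i)
    rw [h, ih] at h1
    rw [pow_succ']
    omega

lemma count_two_cons (a d : ℕ) (ha : 0 < a) (s : Multiset ℕ) :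
    (elemSym 2 (a ::ₘ s)).count (a * d) = (elemSym 2 s).count (a * d) + s.count d := by
  have := count_cons 1 a d ha s
  rwa [elemSym_one] at this

lemma count_two_cons' (a d e : ℕ) (ha : 0 < a) (he : a * d = e) (s : Multiset ℕ) :
    (elemSym 2 (a ::ₘ s)).count e = (elemSym 2 s).count e + s.count d := by
  rw [← he]
  exact count_two_cons a d ha s

lemma count_two_cons_of_not_dvd (a d : ℕ) (had : ¬ a ∣ d) (s : Multiset ℕ) :
    (elemSym 2 (a ::ₘ s)).count d = (elemSym 2 s).count d :=
  count_cons_of_not_dvd 1 a d had s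

lemma count_two_four (s : Multiset ℕ) (hs : 0 ∉ s) :
    (elemSym 2 s).count 4 = s.count 1 * s.count 4 + (s.count 2).choose 2 := by
  induction s using Multiset.induction_on with
  | empty => simp [elemSym_succ_nil]
  | cons a s ih =>
    have hs' : 0 ∉ s := fun h => hs (Multiset.mem_cons_of_mem h)
    have ha : 0 < a := Nat.pos_of_ne_zero (fun h => hs (by simp [h]))
    have ih' := ih hs'
    by_cases had : a ∣ 4
    · have hle := Nat.le_of_dvd (by norm_num) had
      interval_cases a
      · rw [count_two_cons' 1 4 4 (by norm_num) (by norm_num), ih']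
        simp
        ring
      · rw [count_two_cons' 2 2 4 (by norm_num) (by norm_num), ih']
        simp [Nat.choose_succ_succ]
        ring
      · omega
      · rw [count_two_cons' 4 1 4 (by norm_num) (by norm_num), ih']
        simp
        ring
    · rw [count_two_cons_of_not_dvd _ _ had, ih']
      have h1 : a ≠ 1 := by rintro rfl; exact had (by norm_num)
      have h2 : a ≠ 2 := by rintro rfl; exact had (by norm_num)
      have h3 : a ≠ 4 := by rintro rfl; exact had (by norm_num)
      rw [Multiset.count_cons_of_ne h1.symm, Multiset.count_cons_of_ne h2.symm,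
        Multiset.count_cons_of_ne h3.symm]

end Pool.Agent.H20.Esp
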